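import Pool.Agent.SEV.Tab7
import Pool.Agent.SYM.Up5

/-!
# SEV/Sys7: the exchange of seven intervals
-/

set_option autoImplicit false

namespace Pool.Agent.SEV

open Pool.Agent.RTX Pool.Agent.SYM
open Pool.Agent.Helper44.IET

/-- the rows at all levels -/
def rR : ℕ → Rows
  | 0 => (nV 0).R
  | t + 1 => step (c7 t) (rR t)

/-- the zippers at all levels -/
def rPS : ℕ → (ℕ → ℕ) × (ℕ → ℕ)
  | 0 => (fun _ => 0, fun _ => 0)
  | t + 1 => (stepP (c7 t) (rR t) (rPS t).1 (rPS t).2, stepS (c7 t) (rR t) (rPS t).1 (rPS t).2)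

theorem c7_pre {t : ℕ} (h : t < 20) : c7 t = tyV t := by
  unfold c7
  have h1 : Nat.blt t 20 = true := by rw [Nat.blt_eq]; exact h
  rw [h1, cond_true]

theorem c7_per (n : ℕ) {φ : ℕ} (hφ : φ < 34) : c7 (20 + 34 * n + φ) = tyV (20 + φ) := by
  unfold c7
  have h1 : Nat.blt (20 + 34 * n + φ) 20 = false := by
    rw [Bool.eq_false_iff, ne_eq, Nat.blt_eq]; omega
  rw [h1, cond_false, show 20 + 34 * n + φ - 20 = 34 * n + φ by omega, Nat.mul_add_mod, Nat.mod_eq_of_lt hφ]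

theorem dec7 (t : ℕ) (h : 20 ≤ t) : ∃ n φ, φ < 34 ∧ t = 20 + 34 * n + φ :=
  ⟨(t - 20) / 34, (t - 20) % 34, Nat.mod_lt _ (by norm_num), by omega⟩

theorem rR_pre : ∀ t ≤ 20, rR t = (nV t).R := by
  intro t
  induction t with
  | zero => intro _; rfl
  | succ t ih =>
    intro ht
    have h1 := rowS t (by omega)
    show step (c7 t) (rR t) = _
    rw [ih (by omega), c7_pre (by omega)]
    exact rows_ext h1.1 h1.2

theorem rR_per (n : ℕ) : ∀ φ ≤ 34, rR (20 + 34 * n + φ) = (nV (20 + φ)).R := by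
  have key : ∀ n, rR (20 + 34 * n) = (nV 20).R → ∀ φ ≤ 34, rR (20 + 34 * n + φ) = (nV (20 + φ)).R := by
    intro n hn φ
    induction φ with
    | zero => intro _; exact hn
    | succ φ ih =>
      intro hφ
      have h1 := rowS (20 + φ) (by omega)
      show step (c7 (20 + 34 * n + φ)) (rR (20 + 34 * n + φ)) = _
      rw [ih (by omega), c7_per n (by omega)]
      exact rows_ext h1.1 h1.2
  refine key n ?_
  induction n with
  | zero => exact rR_pre 20 (le_refl _)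
  | succ n ih =>
    have h1 := key n ih 34 (le_refl _)
    rw [show 20 + 34 * (n + 1) = 20 + 34 * n + 34 by ring, h1]
    exact rows_ext rowC.1 rowC.2

/-- the two variables -/
noncomputable def xy : ℕ → ℝ × ℝ
  | 0 => (4, 7)
  | n + 1 => (7 * (xy n).1 + 18 * (xy n).2, 12 * (xy n).1 + 31 * (xy n).2)

/-- the contracting factor -/
noncomputable def lq : ℝ := 19 - 6 * Real.sqrt 10

theorem s10l : (3.16 : ℝ) < Real.sqrt 10 := by
  rw [show (3.16 : ℝ) = Real.sqrt (3.16 ^ 2) by rw [Real.sqrt_sq (by norm_num)]]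
  exact Real.sqrt_lt_sqrt (by norm_num) (by norm_num)

theorem s10u : Real.sqrt 10 < (3.1625 : ℝ) := by
  rw [show (3.1625 : ℝ) = Real.sqrt (3.1625 ^ 2) by rw [Real.sqrt_sq (by norm_num)]]
  exact Real.sqrt_lt_sqrt (by norm_num) (by norm_num)

theorem lq_pos : 0 < lq := by unfold lq; linarith [s10u]

theorem lq_lt : lq < 1 / 2 := by unfold lq; linarith [s10l]

theorem xy_pos (n : ℕ) : 4 + (n : ℝ) ≤ (xy n).1 ∧ 0 ≤ (xy n).2 := by
  induction n with
  | zero => constructor <;> norm_num [xy]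
  | succ n ih =>
    show 4 + ((n + 1 : ℕ) : ℝ) ≤ 7 * (xy n).1 + 18 * (xy n).2 ∧ 0 ≤ 12 * (xy n).1 + 31 * (xy n).2
    push_cast
    have : (0 : ℝ) ≤ n := Nat.cast_nonneg n
    constructor <;> linarith [ih.1, ih.2]

theorem xy_eq (n : ℕ) : (xy n).2 - rh * (xy n).1 = lq ^ n * (7 - 4 * rh) := by
  induction n with
  | zero => simp only [xy, pow_zero]; ring
  | succ n ih =>
    show 12 * (xy n).1 + 31 * (xy n).2 - rh * (7 * (xy n).1 + 18 * (xy n).2) = _
    rw [pow_succ, mul_right_comm, ← ih]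
    unfold rh lq
    have h10 := s10
    linear_combination (-2 * (xy n).1) * h10

theorem rg7 (n : ℕ) : Rg (xy n).1 (xy n).2 := by
  obtain ⟨h1, h2⟩ := xy_pos n
  have h3 := xy_eq n
  have h4 : (0 : ℝ) ≤ n := Nat.cast_nonneg n
  have h5 : 0 ≤ 7 - 4 * rh := by unfold rh; linarith [s10u]
  have h6 : 0 ≤ lq ^ n := pow_nonneg lq_pos.le n
  have h7 : lq ^ n ≤ 1 := pow_le_one₀ lq_pos.le (by linarith [lq_lt])
  refine ⟨by linarith, ?_, ?_⟩
  · rw [h3]; exact mul_nonneg h6 h5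
  · rw [h3]; nlinarith

theorem ev_e0 (f : Fm) : ev 4 7 f = (e0 f : ℝ) := by
  unfold ev e0; push_cast; ring

theorem ev_sf (x y : ℝ) (f : Fm) : ev x y (sf f) = ev (7 * x + 18 * y) (12 * x + 31 * y) f := by
  unfold ev sf; push_cast; ring

theorem ev6 (x y : ℝ) : ev x y (0, 0, 6) = 6 := by simp [ev]

theorem fm_pre : ∀ t ≤ 20, ∀ z < 7, 6 * ((rPS t).1 z : ℝ) = (e0 (fP (nV t) z) : ℝ) ∧
    6 * ((rPS t).2 z : ℝ) = (e0 (fS (nV t) z) : ℝ) := by
  intro t
  induction t with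
  | zero =>
    intro _ z hz
    rw [(fm0 z hz).1, (fm0 z hz).2]
    simp [rPS]
  | succ t ih =>
    intro ht z hz
    have ih' := ih (by omega)
    obtain ⟨h1, h2⟩ := fmN t (by omega) z hz
    obtain ⟨ha, hb⟩ := abL t (by omega)
    have hc := c7_pre (show t < 20 by omega)
    have hR := rR_pre t (by omega)
    have i1 := ih' _ ha
    have i2 := ih' _ hb
    have i3 := ih' z hz
    rw [h1, h2]
    have e1 : rPS (t + 1) = (stepP (c7 t) (rR t) (rPS t).1 (rPS t).2, stepS (c7 t) (rR t) (rPS t).1 (rPS t).2) := rfl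
    rw [e1, hc, hR]
    refine ⟨?_, ?_⟩
    · show 6 * ((stepP (tyV t) (nV t).R (rPS t).1 (rPS t).2 z : ℕ) : ℝ) = _
      unfold stepP
      split_ifs
      · push_cast
        linarith [i1.1, i2.1, i2.2]
      · exact i3.1
    · show 6 * ((stepS (tyV t) (nV t).R (rPS t).1 (rPS t).2 z : ℕ) : ℝ) = _
      unfold stepS
      split_ifs
      · push_cast
        linarith [i1.1, i1.2, i2.2]
      · exact i3.2

theorem fm_per (n : ℕ) : ∀ φ ≤ 34, ∀ z < 7,
    6 * ((rPS (20 + 34 * n + φ)).1 z : ℝ) = ev (xy n).1 (xy n).2 (fP (nV (20 + φ)) z) ∧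
    6 * ((rPS (20 + 34 * n + φ)).2 z : ℝ) = ev (xy n).1 (xy n).2 (fS (nV (20 + φ)) z) := by
  have key : ∀ n, (∀ z < 7, 6 * ((rPS (20 + 34 * n)).1 z : ℝ) = ev (xy n).1 (xy n).2 (fP (nV 20) z) ∧
    6 * ((rPS (20 + 34 * n)).2 z : ℝ) = ev (xy n).1 (xy n).2 (fS (nV 20) z)) → ∀ φ ≤ 34, ∀ z < 7,
    6 * ((rPS (20 + 34 * n + φ)).1 z : ℝ) = ev (xy n).1 (xy n).2 (fP (nV (20 + φ)) z) ∧
    6 * ((rPS (20 + 34 * n + φ)).2 z : ℝ) = ev (xy n).1 (xy n).2 (fS (nV (20 + φ)) z) := by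
    intro n hn φ
    induction φ with
    | zero => intro _; exact hn
    | succ φ ih =>
      intro hφ z hz
      have ih' := ih (by omega)
      obtain ⟨h1, h2⟩ := fmS φ (by omega) z hz
      obtain ⟨ha, hb⟩ := abL (20 + φ) (by omega)
      have hc := c7_per n (show φ < 34 by omega)
      have hR := rR_per n φ (by omega)
      have i1 := ih' _ ha
      have i2 := ih' _ hb
      have i3 := ih' z hz
      have e1 : rPS (20 + 34 * n + (φ + 1)) = (stepP (c7 (20 + 34 * n + φ)) (rR (20 + 34 * n + φ))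
        (rPS (20 + 34 * n + φ)).1 (rPS (20 + 34 * n + φ)).2, stepS (c7 (20 + 34 * n + φ)) (rR (20 + 34 * n + φ))
        (rPS (20 + 34 * n + φ)).1 (rPS (20 + 34 * n + φ)).2) := rfl
      rw [e1, hc, hR, h1, h2]
      have h6 := ev6 (xy n).1 (xy n).2
      refine ⟨?_, ?_⟩
      · show 6 * ((stepP (tyV (20 + φ)) (nV (20 + φ)).R (rPS (20 + 34 * n + φ)).1 (rPS (20 + 34 * n + φ)).2 z : ℕ) : ℝ) = _
        unfold stepP
        split_ifs
        · rw [ev_add, ev_add, ev_add, h6]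
          push_cast
          linarith [i1.1, i2.1, i2.2]
        · exact i3.1
      · show 6 * ((stepS (tyV (20 + φ)) (nV (20 + φ)).R (rPS (20 + 34 * n + φ)).1 (rPS (20 + 34 * n + φ)).2 z : ℕ) : ℝ) = _
        unfold stepS
        split_ifs
        · rw [ev_add, ev_add, ev_add, h6]
          push_cast
          linarith [i1.1, i1.2, i2.2]
        · exact i3.2
  refine key n ?_
  induction n with
  | zero =>
    intro z hz
    have h1 := fm_pre 20 (le_refl _) z hz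
    have h2 := ev_e0 (fP (nV 20) z)
    have h3 := ev_e0 (fS (nV 20) z)
    exact ⟨h1.1.trans h2.symm, h1.2.trans h3.symm⟩
  | succ n ih =>
    intro z hz
    have h1 := key n ih 34 (le_refl _) z hz
    have h2 := fmC z hz
    rw [show 20 + 34 * (n + 1) = 20 + 34 * n + 34 by ring]
    rw [h2.1, h2.2, ev_sf, ev_sf] at h1
    exact h1

/-- the lengths -/
noncomputable def len7 : Fin 7 → ℝ := fun i => 1 / 18 * va (ln (nV 0) i)

theorem va_lt7 {p q : ℤ × ℤ} (h : nn (1000 * (p - q) - (1, 0)) = true) : va q < va p := by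
  have h1 := nn_ok h
  have e : va (1000 * (p - q) - (1, 0)) = 1000 * (va p - va q) - 1 := by
    simp only [va, Prod.fst_sub, Prod.snd_sub, Prod.fst_mul, Prod.snd_mul]
    have e1 : ((1000 : ℤ × ℤ).1 : ℤ) = 1000 := rfl
    have e2 : ((1000 : ℤ × ℤ).2 : ℤ) = 1000 := rfl
    rw [e1, e2]
    push_cast
    ring
  rw [e] at h1
  linarith

theorem len7_pos : ∀ j, 0 < len7 j := by
  intro j
  have h1 := nn_ok (lam0 j j.2)
  have e : va (1000 * ln (nV 0) j - (1, 0)) = 1000 * va (ln (nV 0) j) - 1 := by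
    simp only [va, Prod.fst_sub, Prod.snd_sub, Prod.fst_mul, Prod.snd_mul]
    have e1 : ((1000 : ℤ × ℤ).1 : ℤ) = 1000 := rfl
    have e2 : ((1000 : ℤ × ℤ).2 : ℤ) = 1000 := rfl
    rw [e1, e2]
    push_cast
    ring
  rw [e] at h1
  unfold len7
  linarith

theorem sum7 : ln (nV 0) 0 + ln (nV 0) 1 + ln (nV 0) 2 + ln (nV 0) 3 + ln (nV 0) 4 + ln (nV 0) 5 + ln (nV 0) 6 =
    (18, 0) := by decide +kernel

/-- the exchange -/
noncomputable def E7 : Exchange 7 where
  len := len7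
  perm := Equiv.addRight (3 : Fin 7)
  len_pos := len7_pos
  len_sum := by
    rw [Fin.sum_univ_seven]
    have h : va (ln (nV 0) 0 + ln (nV 0) 1 + ln (nV 0) 2 + ln (nV 0) 3 + ln (nV 0) 4 + ln (nV 0) 5 + ln (nV 0) 6) = 18 := by
      rw [sum7]; simp [va]
    rw [va_add, va_add, va_add, va_add, va_add, va_add] at h
    show 1 / 18 * va (ln (nV 0) 0) + 1 / 18 * va (ln (nV 0) 1) + 1 / 18 * va (ln (nV 0) 2) + 1 / 18 * va (ln (nV 0) 3) +
      1 / 18 * va (ln (nV 0) 4) + 1 / 18 * va (ln (nV 0) 5) + 1 / 18 * va (ln (nV 0) 6) = 1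
    linarith

theorem irr7 : E7.Irreducible := by
  intro k h0 h7 h
  have e : ∀ i : Fin 7, ((E7.perm i : Fin 7) : ℕ) = ((i + 3 : Fin 7) : ℕ) := fun i => rfl
  have h1 := h 0 h0
  rw [e] at h1
  have e0 : (((0 : Fin 7) + 3 : Fin 7) : ℕ) = 3 := by decide
  rw [e0] at h1
  have h2 := h 3 (by simpa using h1)
  rw [e] at h2
  have e3 : (((3 : Fin 7) + 3 : Fin 7) : ℕ) = 6 := by decide
  rw [e3] at h2
  omega

theorem rows7 : rowsE E7 = rR 0 := by
  show (⟨List.range 7, (List.finRange 7).map fun k => (((Equiv.addRight (3 : Fin 7)).symm k : Fin 7) : ℕ)⟩ : Rows) =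
    (nV 0).R
  refine rows_ext ?_ ?_
  · rw [row0.1]; decide
  · rw [row0.2]
    show (List.finRange 7).map (fun k => (((Equiv.addRight (3 : Fin 7)).symm k : Fin 7) : ℕ)) = [4, 5, 6, 0, 1, 2, 3]
    decide

/-- the lengths at all levels -/
noncomputable def rL : ℕ → ℕ → ℝ
  | 0 => lamE E7
  | t + 1 => stepL (c7 t) (rR t) (rL t)

/-- the words at all levels -/
def rW : ℕ → ℕ → List ℕ
  | 0 => fun x => [x]
  | t + 1 => stepW (c7 t) (rR t) (rW t)

theorem los7 {i : ℕ} (hi : i < 55) (c : Bool) : los c (nV i).R < 7 ∧ win c (nV i).R < 7 := by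
  obtain ⟨ha, hb⟩ := abL i hi
  unfold los win
  cases c
  · exact ⟨hb, ha⟩
  · exact ⟨ha, hb⟩

theorem rL_pre : ∀ t ≤ 20, ∀ x < 7, rL t x = 1 / 18 * va (ln (nV t) x) := by
  intro t
  induction t with
  | zero =>
    intro _ x hx
    show lamE E7 x = _
    unfold lamE
    rw [dif_pos hx]
    rfl
  | succ t ih =>
    intro ht x hx
    have ih' := ih (by omega)
    have h1 : rL (t + 1) x = (if x = win (c7 t) (rR t) then rL t x - rL t (los (c7 t) (rR t)) else rL t x) := rfl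
    rw [h1, rR_pre t (by omega), c7_pre (by omega)]
    rw [ih' x hx, ih' _ (los7 (by omega) _).1, lamS t (by omega) x hx]
    split_ifs
    · rw [va_sub]; ring
    · rfl

theorem rL_per (n : ℕ) : ∀ φ ≤ 34, ∀ x < 7, rL (20 + 34 * n + φ) x = 1 / 18 * lq ^ n * va (ln (nV (20 + φ)) x) := by
  have key : ∀ n, (∀ x < 7, rL (20 + 34 * n) x = 1 / 18 * lq ^ n * va (ln (nV 20) x)) →
      ∀ φ ≤ 34, ∀ x < 7, rL (20 + 34 * n + φ) x = 1 / 18 * lq ^ n * va (ln (nV (20 + φ)) x) := by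
    intro n hn φ
    induction φ with
    | zero => intro _; exact hn
    | succ φ ih =>
      intro hφ x hx
      have ih' := ih (by omega)
      have h1 : rL (20 + 34 * n + (φ + 1)) x = (if x = win (c7 (20 + 34 * n + φ)) (rR (20 + 34 * n + φ)) then
        rL (20 + 34 * n + φ) x - rL (20 + 34 * n + φ) (los (c7 (20 + 34 * n + φ)) (rR (20 + 34 * n + φ)))
        else rL (20 + 34 * n + φ) x) := rfl
      rw [h1, c7_per n (by omega), rR_per n φ (by omega)]
      rw [ih' x hx, ih' _ (los7 (by omega) _).1]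
      rw [show 20 + (φ + 1) = 20 + φ + 1 by ring, lamS (20 + φ) (by omega) x hx]
      split_ifs
      · rw [va_sub]; ring
      · rfl
  refine key n ?_
  induction n with
  | zero =>
    intro x hx
    rw [show 20 + 34 * 0 = 20 by norm_num, rL_pre 20 (le_refl _) x hx, pow_zero]
    ring
  | succ n ih =>
    intro x hx
    have h1 := key n ih 34 (le_refl _) x hx
    rw [show 20 + 34 * (n + 1) = 20 + 34 * n + 34 by ring, h1, lamC x hx, pow_succ]
    unfold va lq
    push_cast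
    have h10 := s10
    have h4 : (19 * ((ln (nV 20) x).1 : ℝ) - 60 * (ln (nV 20) x).2 + (19 * (ln (nV 20) x).2 - 6 * (ln (nV 20) x).1) *
        Real.sqrt 10) = (19 - 6 * Real.sqrt 10) * ((ln (nV 20) x).1 + (ln (nV 20) x).2 * Real.sqrt 10) := by
      linear_combination (6 * ((ln (nV 20) x).2 : ℝ)) * h10
    rw [h4]
    ring

theorem slt7 (t : ℕ) : rL t (los (c7 t) (rR t)) < rL t (win (c7 t) (rR t)) := by
  rcases Nat.lt_or_ge t 20 with ht | ht
  · rw [rR_pre t ht.le, c7_pre ht]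
    obtain ⟨h4, h5⟩ := los7 (show t < 55 by omega) (tyV t)
    rw [rL_pre t ht.le _ h4, rL_pre t ht.le _ h5]
    exact mul_lt_mul_of_pos_left (va_lt7 (lamW t (by omega))) (by norm_num)
  · obtain ⟨n, φ, hφ, rfl⟩ := dec7 t ht
    rw [c7_per n hφ, rR_per n φ hφ.le]
    obtain ⟨h4, h5⟩ := los7 (show 20 + φ < 55 by omega) (tyV (20 + φ))
    rw [rL_per n φ hφ.le _ h4, rL_per n φ hφ.le _ h5]
    exact mul_lt_mul_of_pos_left (va_lt7 (lamW (20 + φ) (by omega))) (by have := lq_pos; positivity)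

theorem gx7 (t : ℕ) : GX E7 (rR t) (rW t) (rL t) (rPS t).1 (rPS t).2 := by
  induction t with
  | zero =>
    have := gx_init E7 (by norm_num) irr7
    rw [rows7] at this
    exact this
  | succ t ih => exact gx_step ih (c7 t) (slt7 t)

theorem sem7 (t : ℕ) : ∃ v : Lev, v.R = rR t ∧ chk v = true ∧
    ∃ r x y, Sem v (rL t) (rPS t).1 (rPS t).2 r x y := by
  rcases Nat.lt_or_ge t 20 with ht | ht
  · refine ⟨nV t, (rR_pre t ht.le).symm, chkA t (by omega), 1 / 18, 4, 7, by norm_num, rg7 0, rL_pre t ht.le,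
      (rowL t (by omega)).1, (rowL t (by omega)).2, fun z hz => ?_, fun z hz => ?_⟩
    · rw [ev_e0]; exact (fm_pre t ht.le z hz).1
    · rw [ev_e0]; exact (fm_pre t ht.le z hz).2
  · obtain ⟨n, φ, hφ, rfl⟩ := dec7 t ht
    exact ⟨nV (20 + φ), (rR_per n φ hφ.le).symm, chkA (20 + φ) (by omega), 1 / 18 * lq ^ n, (xy n).1, (xy n).2,
      by have := lq_pos; positivity, rg7 n, rL_per n φ hφ.le, (rowL (20 + φ) (by omega)).1,
      (rowL (20 + φ) (by omega)).2, fun z hz => (fm_per n φ hφ.le z hz).1, fun z hz => (fm_per n φ hφ.le z hz).2⟩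

theorem good7 (t : ℕ) : GoodP E7 (rR t) (rL t) (rPS t).1 (rPS t).2 th := by
  obtain ⟨v, hv, hc, r, x, y, hs⟩ := sem7 t
  have g := gx7 t
  rw [← hv] at g ⊢
  exact chk_ok g (bij_of E7 (by norm_num) irr7) hs hc

theorem tot7 (n : ℕ) : tot (rL (20 + 34 * n)) (rR (20 + 34 * n)).top ≤ lq ^ n := by
  have h1 := rR_per n 0 (by norm_num)
  rw [Nat.add_zero] at h1
  have h2 := rL_per n 0 (by norm_num)
  simp only [Nat.add_zero] at h2
  have h3 : (nV 20).R.top = [0, 1, 4, 6, 5, 2, 3] := by decide +kernel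
  have h4 : ln (nV 20) 0 + ln (nV 20) 1 + ln (nV 20) 2 + ln (nV 20) 3 + ln (nV 20) 4 + ln (nV 20) 5 + ln (nV 20) 6 =
    (12, -3) := by decide +kernel
  have h5 : va (ln (nV 20) 0 + ln (nV 20) 1 + ln (nV 20) 2 + ln (nV 20) 3 + ln (nV 20) 4 + ln (nV 20) 5 + ln (nV 20) 6) =
    va (12, -3) := by rw [h4]
  rw [va_add, va_add, va_add, va_add, va_add, va_add] at h5
  rw [h1, h3]
  show ([0, 1, 4, 6, 5, 2, 3].map (rL (20 + 34 * n))).sum ≤ _
  simp only [List.map_cons, List.map_nil, List.sum_cons, List.sum_nil]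
  rw [h2 0 (by norm_num), h2 1 (by norm_num), h2 2 (by norm_num), h2 3 (by norm_num), h2 4 (by norm_num),
    h2 5 (by norm_num), h2 6 (by norm_num)]
  have h6 : va (12, -3) ≤ 18 := by unfold va; push_cast; linarith [s10n]
  have h7 : 0 ≤ lq ^ n := pow_nonneg lq_pos.le n
  nlinarith

/-- the words become long -/
theorem hts7 (m : ℕ) : ∀ x < 7, m < (rW (20 + 34 * (5 * m + 5)) x).length := by
  intro x hx
  have h1 := fm_per (5 * m + 5) 0 (by norm_num) x hx
  rw [Nat.add_zero, Nat.add_zero] at h1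
  have h2 := nf_ok (rg7 (5 * m + 5)) (ht7 x hx)
  have h3 : ev (xy (5 * m + 5)).1 (xy (5 * m + 5)).2 (1, 0, 0) = (xy (5 * m + 5)).1 := by simp [ev]
  have h4 : ev (xy (5 * m + 5)).1 (xy (5 * m + 5)).2 (hF (nV 20) x) = 6 * (((rPS (20 + 34 * (5 * m + 5))).1 x : ℝ) +
      (rPS (20 + 34 * (5 * m + 5))).2 x + 1) := by
    unfold hF
    rw [ev_add, ev_add, ← h1.1, ← h1.2, ev6]
    ring
  have h5 := (xy_pos (5 * m + 5)).1
  rw [h3, h4] at h2
  rw [(gx7 (20 + 34 * (5 * m + 5))).len x hx]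
  have hth : th ≤ 7 / 10 := by unfold th; linarith [s10u]
  set H : ℝ := ((rPS (20 + 34 * (5 * m + 5))).1 x : ℝ) + (rPS (20 + 34 * (5 * m + 5))).2 x + 1 with hH
  have hH0 : 0 ≤ H := by positivity
  have h6 : th * (6 * H) ≤ 7 / 10 * (6 * H) := mul_le_mul_of_nonneg_right hth (by linarith)
  push_cast at h5
  have h7 : (m : ℝ) < H := by linarith
  rw [hH] at h7
  exact_mod_cast h7

theorem lv7 : Lv E7 rR c7 rW rL (fun t => (rPS t).1) (fun t => (rPS t).2) where
  bij := bij_of E7 (by norm_num) irr7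
  g := gx7
  hR := fun _ => rfl
  hl := fun _ => rfl
  hlt := slt7
  r0 := by
    have := (geo_init E7 (by norm_num) irr7).2
    rw [rows7] at this
    exact this
  rt := fun ε hε => by
    obtain ⟨n, hn⟩ := exists_pow_lt_of_lt_one hε (show lq < 1 by linarith [lq_lt])
    exact ⟨20 + 34 * n, (tot7 n).trans_lt hn⟩
  hts := fun m => ⟨20 + 34 * (5 * m + 5), hts7 m⟩

theorem no_conn7 (i j : Fin 7) (hj : 0 < (j : ℕ)) (k : ℕ) (h : E7.T^[k] (E7.left i) = E7.left j) : k = 0 := by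
  by_contra hk
  have hk' : 0 < k := Nat.pos_of_ne_zero hk
  have hn := hts7 k
  set T := 20 + 34 * (5 * k + 5) with hT
  have g := gx7 T
  have hB := lv7.bij
  have hri := g.geo.ri
  have hlam := rL_per (5 * k + 5) 0 (by norm_num)
  have hR := rR_per (5 * k + 5) 0 (by norm_num)
  simp only [Nat.add_zero] at hlam hR
  rw [← hT] at hlam hR
  have hJ : ∀ x < 7, inJ (rR T) (rL T) x (ps (rL T) x (rR T).top) := fun x hx =>
    ⟨le_refl _, by linarith [g.geo.pos x hx]⟩
  have hpt : ∀ w ∈ (rR T).top, 0 < rL T w := fun w hw => g.geo.pos w ((ri_mem_top hri w).1 hw)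
  have hpb : ∀ w ∈ (rR T).bot, 0 < rL T w := fun w hw => g.geo.pos w ((ri_mem_bot hri w).1 hw)
  have gi := g.gp i
  have gj := g.gp j
  have hlj := g.len j j.2
  have hli := g.len i i.2
  rw [← gi, ← gj, ← Function.iterate_add_apply] at h
  rcases Nat.lt_or_ge (k + (rPS T).1 i) (rW T i).length with h1 | h1
  · obtain ⟨h2, h3⟩ := tower g hB i.2 j.2 (hJ i i.2) (hJ j j.2) h1 (by omega) h
    have h4 : (i : ℕ) = j := ps_disj (ri_nd_top hri) hpt ((ri_mem_top hri _).2 i.2) ((ri_mem_top hri _).2 j.2)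
      (hJ i i.2).1 (hJ i i.2).2 (by rw [h2]) (by rw [h2]; exact (hJ j j.2).2)
    rw [h4] at h3
    omega
  · obtain ⟨q, hq⟩ : ∃ q, k + (rPS T).1 i = q + (rW T i).length :=
      ⟨k + (rPS T).1 i - (rW T i).length, by omega⟩
    have hr := g.geo.ret i i.2 _ (hJ i i.2)
    rw [hq, Function.iterate_add_apply, hr] at h
    have e1 : ps (rL T) i (rR T).top - ps (rL T) i (rR T).top + ps (rL T) i (rR T).bot = ps (rL T) i (rR T).bot := by ring
    rw [e1] at h
    have c1 := ps_nonneg hpb (i : ℕ)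
    have c2 := ps_le_tot hpb ((ri_mem_bot hri _).2 i.2)
    have c3 := g.geo.pos i i.2
    have c4 : tot (rL T) (rR T).bot = tot (rL T) (rR T).top := tot_perm _ (hri.bot.trans hri.top.symm)
    obtain ⟨e, he, he1, he2⟩ := ps_find (ri_nd_top hri) hpt c1 (by rw [← c4]; linarith)
    have hed := (ri_mem_top hri e).1 he
    obtain ⟨h2, -⟩ := tower g hB hed j.2 ⟨he1, he2⟩ (hJ j j.2) (by have := hn e hed; omega) (by omega) h
    have hrow := rowL 20 (by norm_num)
    rw [hR, ps_pz hlam i _ hrow.2, ps_pz hlam j _ hrow.1] at h2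
    have hr0 : (0 : ℝ) < 1 / 18 * lq ^ (5 * k + 5) := by have := lq_pos; positivity
    have h3 := mul_left_cancel₀ hr0.ne' h2
    have h3' : va (pB (nV 20) i) = va (pT (nV 20) j) := h3
    rcases noC7 i i.2 j j.2 hj with h4 | h4
    · have := va_lt7 h4
      linarith
    · have := va_lt7 h4
      linarith

theorem left_mem7 (i : Fin 7) : E7.left i ∈ E7.interval i := ⟨le_refl _, by linarith [E7.len_pos i]⟩

theorem keane7 : E7.Keane := by
  have key : ∀ i j : Fin 7, 0 < (j : ℕ) → ∀ m n : ℕ, n ≤ m → E7.T^[m] (E7.left i) = E7.T^[n] (E7.left j) →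
      i = j ∧ m = n := by
    intro i j hj m n hnm h
    obtain ⟨k, rfl⟩ : ∃ k, m = n + k := ⟨m - n, by omega⟩
    rw [Function.iterate_add_apply] at h
    have hB := lv7.bij
    have b1 := hB.iv i _ (left_mem7 i)
    have b2 := hB.iv j _ (left_mem7 j)
    have b3 := map_it hB b1.1 b1.2 k
    have h1 := inj_it hB b3.1 b3.2 b2.1 b2.2 n h
    have h2 := no_conn7 i j hj k h1
    subst h2
    refine ⟨?_, rfl⟩
    have h3 : E7.left i = E7.left j := h1
    have h4 := left_mem7 i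
    rw [h3] at h4
    exact E7.interval_inj h4 (left_mem7 j)
  intro i j hi hj m n h
  rcases Nat.le_total n m with h1 | h1
  · exact key i j hj m n h1 h
  · obtain ⟨h2, h3⟩ := key j i hi n m h1 h.symm
    exact ⟨h2.symm, h3.symm⟩

theorem cod_ex7 : ∃ u : ℕ → Fin 7, E7.IsCoding u := by
  have hB := lv7.bij
  have h : ∀ n, ∃ i : Fin 7, E7.T^[n] (0 : ℝ) ∈ E7.interval i := by
    intro n
    have h1 := map_it hB (le_refl (0 : ℝ)) one_pos n
    exact hB.mem _ h1.1 h1.2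
  choose u hu using h
  exact ⟨u, 0, ⟨le_refl _, one_pos⟩, hu⟩

theorem th7 : 1 + th = (7 + Real.sqrt 10) / 6 := by
  unfold th; ring

/-- both critical exponents of the codings of the exchange are at most `(7 + √10) / 6` -/
theorem up7 {u : ℕ → Fin 7} (hu : E7.IsCoding u) : critExp u ≤ (((7 + Real.sqrt 10) / 6 : ℝ) : EReal) ∧
    asympCritExp u ≤ (((7 + Real.sqrt 10) / 6 : ℝ) : EReal) := by
  have key : ∀ i p l : ℕ, 0 < p → HasPower u i p l → (l : ℝ) ≤ (7 + Real.sqrt 10) / 6 * p := by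
    intro i p l hp hpow
    have h1 := pow_le2 lv7 th_nn good7 hu hp hpow
    rw [th7] at h1
    exact h1
  refine ⟨?_, asym_of fun ε hε => ⟨0, le_refl _, fun i p l hp hpow => ?_⟩⟩
  · refine iSup_le fun i => iSup_le fun p => iSup_le fun l => iSup_le fun hp => iSup_le fun hpow => ?_
    rw [EReal.coe_le_coe_iff]
    have hp' : (1 : ℝ) ≤ p := by exact_mod_cast hp
    rw [div_le_iff₀ (by linarith)]
    exact key i p l hp hpow
  · have h1 := key i p l hp hpow
    have hp' : (0 : ℝ) ≤ p := Nat.cast_nonneg p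
    nlinarith

theorem mem7 : ∃ u ∈ Codings 7, critExp u ≤ (((7 + Real.sqrt 10) / 6 : ℝ) : EReal) ∧
    asympCritExp u ≤ (((7 + Real.sqrt 10) / 6 : ℝ) : EReal) := by
  obtain ⟨u, hu⟩ := cod_ex7
  exact ⟨u, ⟨E7, irr7, keane7, hu⟩, up7 hu⟩

end Pool.Agent.SEV
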