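import Pool.Agent.SEV.Gp

/-!
# SEV/Bk: the table check of the condition at a level
-/

set_option autoImplicit false

namespace Pool.Agent.SEV

open Pool.Agent.RTX Pool.Agent.SYM
open Pool.Agent.Helper44.IET

/-- affine forms in two variables -/
abbrev Fm := ℤ × ℤ × ℤ

/-- `x + y √10` is at least zero -/
def nn (q : ℤ × ℤ) : Bool :=
  (decide (0 ≤ q.1) && (decide (0 ≤ q.2) || decide (10 * (q.2 * q.2) ≤ q.1 * q.1))) ||
    (decide (0 ≤ q.2) && decide (q.1 * q.1 ≤ 10 * (q.2 * q.2)))

/-- value -/
noncomputable def va (q : ℤ × ℤ) : ℝ := q.1 + q.2 * Real.sqrt 10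

theorem s10 : Real.sqrt 10 ^ 2 = 10 := Real.sq_sqrt (by norm_num)

theorem s10n : 0 ≤ Real.sqrt 10 := Real.sqrt_nonneg _

theorem va_add (p q : ℤ × ℤ) : va (p + q) = va p + va q := by
  simp only [va, Prod.fst_add, Prod.snd_add]; push_cast; ring

theorem va_sub (p q : ℤ × ℤ) : va (p - q) = va p - va q := by
  simp only [va, Prod.fst_sub, Prod.snd_sub]; push_cast; ring

theorem nn_ok {q : ℤ × ℤ} (h : nn q = true) : 0 ≤ va q := by
  unfold nn at h
  simp only [Bool.or_eq_true, Bool.and_eq_true, decide_eq_true_eq] at h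
  unfold va
  have h10 := s10
  have hn := s10n
  rcases h with ⟨h1, h2 | h2⟩ | ⟨h1, h2⟩
  · have h3 : (0 : ℝ) ≤ q.1 := by exact_mod_cast h1
    have h4 : (0 : ℝ) ≤ q.2 := by exact_mod_cast h2
    positivity
  · have h3 : (0 : ℝ) ≤ q.1 := by exact_mod_cast h1
    have h4 : (10 : ℝ) * (q.2 * q.2) ≤ q.1 * q.1 := by exact_mod_cast h2
    have h5 : (q.2 * Real.sqrt 10) ^ 2 ≤ (q.1 : ℝ) ^ 2 := by
      rw [mul_pow, h10]; nlinarith
    have h6 := abs_le_of_sq_le_sq' h5 h3
    linarith [h6.1]
  · have h3 : (0 : ℝ) ≤ q.2 := by exact_mod_cast h1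
    have h4 : (q.1 : ℝ) * q.1 ≤ 10 * (q.2 * q.2) := by exact_mod_cast h2
    have h5 : (q.1 : ℝ) ^ 2 ≤ (q.2 * Real.sqrt 10) ^ 2 := by
      rw [mul_pow, h10]; nlinarith
    have h6 := abs_le_of_sq_le_sq' h5 (by positivity)
    linarith [h6.1]

/-- value of a form -/
noncomputable def ev (x y : ℝ) (f : Fm) : ℝ := f.1 * x + f.2.1 * y + f.2.2

theorem ev_add (x y : ℝ) (f g : Fm) : ev x y (f + g) = ev x y f + ev x y g := by
  simp only [ev, Prod.fst_add, Prod.snd_add]; push_cast; ring

/-- the slope of the expanding direction -/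
noncomputable def rh : ℝ := (2 + Real.sqrt 10) / 3

/-- the threshold minus one -/
noncomputable def th : ℝ := (1 + Real.sqrt 10) / 6

/-- `6 N ≤ (1 + √10) V` on the range of the two variables -/
def nf (V N : Fm) : Bool :=
  nn (3 * (V.1 - 6 * N.1) + 2 * (V.2.1 - 6 * N.2.1) + 10 * V.2.1, 3 * V.1 + (V.2.1 - 6 * N.2.1) + 2 * V.2.1) &&
  (nn (4 * (3 * (V.1 - 6 * N.1) + 2 * (V.2.1 - 6 * N.2.1) + 10 * V.2.1) + 3 * (V.2.2 - 6 * N.2.2),
    4 * (3 * V.1 + (V.2.1 - 6 * N.2.1) + 2 * V.2.1) + 3 * V.2.2) &&
  nn (4 * (V.1 - 6 * N.1) + 7 * (V.2.1 - 6 * N.2.1) + (V.2.2 - 6 * N.2.2), 4 * V.1 + 7 * V.2.1 + V.2.2))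

/-- the range of the two variables -/
structure Rg (x y : ℝ) : Prop where
  x4 : 4 ≤ x
  lo : 0 ≤ y - rh * x
  hi : y - rh * x ≤ 7 - 4 * rh

theorem nf_ok {x y : ℝ} (hr : Rg x y) {V N : Fm} (h : nf V N = true) : ev x y N ≤ th * ev x y V := by
  unfold nf at h
  simp only [Bool.and_eq_true] at h
  obtain ⟨h1, h2, h3⟩ := h
  have k1 := nn_ok h1
  have k2 := nn_ok h2
  have k3 := nn_ok h3
  unfold va at k1 k2 k3
  push_cast at k1 k2 k3
  obtain ⟨x4, lo, hi⟩ := hr
  have h10 := s10
  unfold ev th
  -- the coefficients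
  set s := Real.sqrt 10 with hs
  set A : ℝ := (V.1 - 6 * N.1) + V.1 * s with hA
  set B : ℝ := (V.2.1 - 6 * N.2.1) + V.2.1 * s with hB
  set C : ℝ := (V.2.2 - 6 * N.2.2) + V.2.2 * s with hC
  have e1 : 3 * (A + B * rh) = 3 * ((V.1 : ℝ) - 6 * N.1) + 2 * ((V.2.1 : ℝ) - 6 * N.2.1) + 10 * V.2.1 +
      (3 * V.1 + ((V.2.1 : ℝ) - 6 * N.2.1) + 2 * V.2.1) * s := by
    rw [hA, hB]; unfold rh; rw [← hs]
    linear_combination ((V.2.1 : ℝ)) * h10
  have p1 : 0 ≤ A + B * rh := by linarith
  have p2 : 0 ≤ 4 * (A + B * rh) + C := by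
    have : 3 * (4 * (A + B * rh) + C) = 4 * (3 * (A + B * rh)) + 3 * C := by ring
    rw [e1, hC] at this
    linarith
  have p3 : 0 ≤ 4 * A + 7 * B + C := by
    rw [hA, hB, hC]; linarith
  have goal : 0 ≤ A * x + B * y + C := by
    have e2 : A * x + B * y + C = (A + B * rh) * x + B * (y - rh * x) + C := by ring
    rw [e2]
    have q1 := mul_le_mul_of_nonneg_left x4 p1
    rcases le_total 0 B with hB0 | hB0
    · have q2 := mul_nonneg hB0 lo
      linarith
    · have q2 := mul_le_mul_of_nonpos_left hi hB0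
      have e3 : 4 * A + 7 * B + C = (A + B * rh) * 4 + B * (7 - 4 * rh) + C := by ring
      linarith
  have e4 : A * x + B * y + C = (1 + s) * (V.1 * x + V.2.1 * y + V.2.2) - 6 * (N.1 * x + N.2.1 * y + N.2.2) := by
    rw [hA, hB, hC]; ring
  rw [e4] at goal
  linarith

/-- the tables of one level -/
structure Lev where
  R : Rows
  T : List (ℤ × ℤ)
  FP : List Fm
  FS : List Fm

/-- left ends of the intervals in a row -/
def pz (l : List (ℤ × ℤ)) (x : ℕ) : List ℕ → ℤ × ℤ
  | [] => (0, 0)
  | z :: r => if z = x then (0, 0) else l.getD z (0, 0) + pz l x r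

/-- left end in the top row -/
def pT (v : Lev) (z : ℕ) : ℤ × ℤ := pz v.T z v.R.top

/-- left end in the bottom row -/
def pB (v : Lev) (z : ℕ) : ℤ × ℤ := pz v.T z v.R.bot

/-- length -/
def ln (v : Lev) (z : ℕ) : ℤ × ℤ := v.T.getD z (0, 0)

/-- six times the forward time -/
def fP (v : Lev) (z : ℕ) : Fm := v.FP.getD z (0, 0, 0)

/-- six times the backward time -/
def fS (v : Lev) (z : ℕ) : Fm := v.FS.getD z (0, 0, 0)

/-- six times the height -/
def hF (v : Lev) (e : ℕ) : Fm := fP v e + fS v e + (0, 0, 6)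

/-- `q` is at least the left end of the run -/
def cnd (v : Lev) (Ls q : ℤ × ℤ) : Bool := nn (q - Ls) || (nn (q - pT v v.R.a) || nn (q - pB v v.R.b))

/-- good cuts for the left end below `Ls` and the period `V` -/
def okc (v : Lev) (Ls : ℤ × ℤ) (V : Fm) : Bool :=
  (List.range 7).any fun z => cnd v Ls (pT v z) &&
    (List.range 7).any fun w => cnd v Ls (pB v w) && nf V (fP v z + fS v w)

/-- one more visit is enough -/
def stopc (v : Lev) (V : Fm) : Bool :=
  (List.range 7).all fun f => nf (V + hF v f) (fP v v.R.a + fS v v.R.b)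

/-- the new interval -/
def nlo (v : Lev) (d : Bool) (lo : ℤ × ℤ) (e : ℕ) : ℤ × ℤ :=
  bif d then (bif nn (lo - pB v e) then lo else pB v e) - pB v e + pT v e
  else (bif nn (lo - pT v e) then lo else pT v e) - pT v e + pB v e

/-- the new interval -/
def nhi (v : Lev) (d : Bool) (hi : ℤ × ℤ) (e : ℕ) : ℤ × ℤ :=
  bif d then (bif nn (hi - (pB v e + ln v e)) then pB v e + ln v e else hi) - pB v e + pT v e
  else (bif nn (hi - (pT v e + ln v e)) then pT v e + ln v e else hi) - pT v e + pB v e

/-- the interval does not meet the interval of `e` -/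
def emp (v : Lev) (d : Bool) (lo hi : ℤ × ℤ) (e : ℕ) : Bool :=
  bif d then nn (pB v e - hi) || nn (lo - (pB v e + ln v e)) else nn (pT v e - hi) || nn (lo - (pT v e + ln v e))

/-- the recursion over the visits (`d = true`: backward) -/
def bk (v : Lev) (d : Bool) : ℕ → ℤ × ℤ → ℤ × ℤ → Fm → Bool
  | 0, _, _, _ => false
  | n + 1, lo, hi, V => (List.range 7).all fun e => emp v d lo hi e ||
      ((nn (nlo v d lo e - pT v v.R.a) || (nn (nlo v d lo e - pB v v.R.b) || okc v (nhi v d hi e) (V + hF v e))) &&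
        (stopc v (V + hF v e) || bk v d n (nlo v d lo e) (nhi v d hi e) (V + hF v e)))

/-- the check of a level -/
def chk (v : Lev) : Bool :=
  bk v true 4 (bif nn (pT v v.R.a - pB v v.R.b) then pT v v.R.a else pB v v.R.b) (pT v v.R.a + ln v v.R.a) (0, 0, 0) &&
  bk v false 4 (bif nn (pT v v.R.a - pB v v.R.b) then pT v v.R.a else pB v v.R.b) (pT v v.R.a + ln v v.R.a) (0, 0, 0)

/-- the tables describe the level -/
structure Sem (v : Lev) (lam : ℕ → ℝ) (P S : ℕ → ℕ) (r x y : ℝ) : Prop where
  r0 : 0 < r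
  rg : Rg x y
  hl : ∀ z < 7, lam z = r * va (ln v z)
  top : ∀ z ∈ v.R.top, z < 7
  bot : ∀ z ∈ v.R.bot, z < 7
  hP : ∀ z < 7, 6 * (P z : ℝ) = ev x y (fP v z)
  hS : ∀ z < 7, 6 * (S z : ℝ) = ev x y (fS v z)

theorem ps_pz {lam : ℕ → ℝ} {T : List (ℤ × ℤ)} {r : ℝ} (h : ∀ z < 7, lam z = r * va (T.getD z (0, 0))) (x : ℕ) :
    ∀ l : List ℕ, (∀ z ∈ l, z < 7) → ps lam x l = r * va (pz T x l) := by
  intro l
  induction l with
  | nil =>
    intro _
    simp [ps, pz, va]
  | cons z l ih =>
    intro hl
    show (if z = x then 0 else lam z + ps lam x l) = r * va (if z = x then (0, 0) else T.getD z (0, 0) + pz T x l)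
    split_ifs
    · simp [va]
    · rw [ih fun w hw => hl w (List.mem_cons_of_mem _ hw), h z (hl z List.mem_cons_self), va_add]
      ring

section

variable {E : Exchange 7} {v : Lev} {σ : ℕ → List ℕ} {lam : ℕ → ℝ} {P S : ℕ → ℕ} {r x y : ℝ}

theorem psT (h : Sem v lam P S r x y) (z : ℕ) : ps lam z v.R.top = r * va (pT v z) := ps_pz h.hl z _ h.top

theorem psB (h : Sem v lam P S r x y) (z : ℕ) : ps lam z v.R.bot = r * va (pB v z) := ps_pz h.hl z _ h.bot

theorem hF_ev (h : Sem v lam P S r x y) {e : ℕ} (he : e < 7) : 6 * ((P e : ℝ) + S e + 1) = ev x y (hF v e) := by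
  unfold hF
  rw [ev_add, ev_add, ← h.hP e he, ← h.hS e he]
  simp only [ev]
  push_cast
  ring

theorem le_of_nn (h : Sem v lam P S r x y) {p q : ℤ × ℤ} (hn : nn (p - q) = true) : r * va q ≤ r * va p := by
  have h1 := nn_ok hn
  rw [va_sub] at h1
  exact mul_le_mul_of_nonneg_left (by linarith) h.r0.le

theorem cnd_ok (h : Sem v lam P S r x y) {Ls q : ℤ × ℤ} {z : ℝ} (hz : z < r * va Ls)
    (ha : z < ps lam v.R.a v.R.top) (hb : z < ps lam v.R.b v.R.bot) (hc : cnd v Ls q = true) : z < r * va q := by
  unfold cnd at hc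
  simp only [Bool.or_eq_true] at hc
  rw [psT h] at ha
  rw [psB h] at hb
  rcases hc with hc | hc | hc
  · exact hz.trans_le (le_of_nn h hc)
  · exact ha.trans_le (le_of_nn h hc)
  · exact hb.trans_le (le_of_nn h hc)

theorem okc_ok (h : Sem v lam P S r x y) {Ls : ℤ × ℤ} {V : Fm} {z W : ℝ} {N : ℕ} (hz : z < r * va Ls)
    (ha : z < ps lam v.R.a v.R.top) (hb : z < ps lam v.R.b v.R.bot) (hW : 6 * W = ev x y V)
    (hN : ∀ a b : Fin 7, z < ps lam a v.R.top → z < ps lam b v.R.bot → N ≤ P a + S b)
    (hc : okc v Ls V = true) : (N : ℝ) ≤ th * W := by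
  unfold okc at hc
  simp only [List.any_eq_true, List.mem_range, Bool.and_eq_true] at hc
  obtain ⟨a, ha7, hca, b, hb7, hcb, hnf⟩ := hc
  have h1 : z < ps lam a v.R.top := by rw [psT h]; exact cnd_ok h hz ha hb hca
  have h2 : z < ps lam b v.R.bot := by rw [psB h]; exact cnd_ok h hz ha hb hcb
  have h3 := hN ⟨a, ha7⟩ ⟨b, hb7⟩ h1 h2
  have h4 := nf_ok h.rg hnf
  rw [ev_add, ← h.hP a ha7, ← h.hS b hb7, ← hW] at h4
  have h5 : (N : ℝ) ≤ P a + S b := by exact_mod_cast h3
  linarith

theorem stop_ok (h : Sem v lam P S r x y) {V : Fm} {z W : ℝ} {N f : ℕ} (hf : f < 7) (ha7 : v.R.a < 7) (hb7 : v.R.b < 7)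
    (ha : z < ps lam v.R.a v.R.top) (hb : z < ps lam v.R.b v.R.bot) (hW : 6 * W = ev x y V)
    (hN : ∀ a b : Fin 7, z < ps lam a v.R.top → z < ps lam b v.R.bot → N ≤ P a + S b)
    (hc : stopc v V = true) : (N : ℝ) ≤ th * (W + (P f + S f + 1)) := by
  unfold stopc at hc
  simp only [List.all_eq_true, List.mem_range] at hc
  have h3 := hN ⟨v.R.a, ha7⟩ ⟨v.R.b, hb7⟩ ha hb
  have h4 := nf_ok h.rg (hc f hf)
  rw [ev_add, ev_add, ← h.hP _ ha7, ← h.hS _ hb7, ← hW, ← hF_ev h hf] at h4
  have h5 : (N : ℝ) ≤ P v.R.a + S v.R.b := by exact_mod_cast h3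
  linarith

theorem th_nn : 0 ≤ th := by unfold th; have := s10n; positivity

theorem bk_back (g : GX E v.R σ lam P S) (hB : Bij E) (h : Sem v lam P S r x y) :
    ∀ (n : ℕ) (lo hi : ℤ × ℤ) (V : Fm), bk v true n lo hi V = true →
    ∀ (N p : ℕ) (y' z W : ℝ), 6 * W = ev x y V → 0 ≤ y' → y' < tot lam v.R.top → r * va lo ≤ y' → y' < r * va hi →
      0 ≤ z → z < ps lam v.R.a v.R.top → z < ps lam v.R.b v.R.bot → 0 < p → E.T^[p] z = y' →
      (∀ a b : Fin 7, z < ps lam a v.R.top → z < ps lam b v.R.bot → N ≤ P a + S b) → (N : ℝ) ≤ th * (W + p) := by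
  have hri := g.geo.ri
  obtain ⟨had, hbd, hab⟩ := ri_ab hri
  have hpt : ∀ w ∈ v.R.top, 0 < lam w := fun w hw => g.geo.pos w ((ri_mem_top hri w).1 hw)
  have hpb : ∀ w ∈ v.R.bot, 0 < lam w := fun w hw => g.geo.pos w ((ri_mem_bot hri w).1 hw)
  have et : tot lam v.R.bot = tot lam v.R.top := tot_perm lam (hri.bot.trans hri.top.symm)
  have ea : ps lam v.R.a v.R.top = tot lam v.R.top - lam v.R.a := ps_lst (ri_nd_top hri) (ne_top hri)
  intro n
  induction n with
  | zero => intro lo hi V hc; simp [bk] at hc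
  | succ n ih =>
    intro lo hi V hc N p y' z W hW hy0 hy1 hlo hhi hz0 hza hzb hp hper hN
    obtain ⟨e, he, he1, he2⟩ := ps_find (ri_nd_bot hri) hpb hy0 (by rw [et]; exact hy1)
    have hed := (ri_mem_bot hri e).1 he
    simp only [bk, List.all_eq_true, List.mem_range, Bool.or_eq_true, Bool.and_eq_true] at hc
    have hce := hc e hed
    have hle := h.hl e hed
    have hz1 : z < tot lam v.R.top := by linarith [g.geo.pos _ had]
    have e1 : r * va (pB v e + ln v e) = ps lam e v.R.bot + lam e := by
      rw [psB h, hle, va_add]; ring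
    rcases hce with hce | ⟨hcand, hrec⟩
    · exfalso
      simp only [emp, cond_true, Bool.or_eq_true] at hce
      rcases hce with hce | hce
      · have := le_of_nn h hce
        rw [psB h] at he1
        linarith
      · have := le_of_nn h hce
        rw [e1] at this
        linarith
    · -- the preimage
      have hJ : inJ v.R lam e (y' - ps lam e v.R.bot + ps lam e v.R.top) := ⟨by linarith, by linarith⟩
      have hret := g.geo.ret e hed _ hJ
      have t1 := ps_nonneg hpt e
      have t2 := ps_le_tot hpt ((ri_mem_top hri _).2 hed)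
      have hlo2 : r * va (nlo v true lo e) ≤ y' - ps lam e v.R.bot + ps lam e v.R.top := by
        simp only [nlo, cond_true]
        rw [va_add, va_sub, psT h, psB h]
        cases hq : nn (lo - pB v e) with
        | true => rw [cond_true]; linarith
        | false => rw [cond_false]; rw [psB h] at he1; linarith
      have hhi2 : y' - ps lam e v.R.bot + ps lam e v.R.top < r * va (nhi v true hi e) := by
        simp only [nhi, cond_true]
        rw [va_add, va_sub, psT h, psB h]
        cases hq : nn (hi - (pB v e + ln v e)) with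
        | true => rw [cond_true]; rw [psB h] at he2 e1; linarith
        | false => rw [cond_false]; linarith
      set y2 : ℝ := y' - ps lam e v.R.bot + ps lam e v.R.top with hy2
      have hlen := g.len e hed
      have hlene : 0 < (σ e).length := by omega
      obtain ⟨_, v1⟩ := g.geo.vis _ hed _ hJ 0 hlene
      have b1 := hB.iv _ _ v1
      rw [Function.iterate_zero, id] at b1
      have hret' : E.T^[(σ e).length] y2 = y' := by rw [hret, hy2]; ring
      -- label of z
      obtain ⟨f, hf, hf1, hf2⟩ := ps_find (ri_nd_top hri) hpt hz0 hz1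
      have hfd := (ri_mem_top hri f).1 hf
      have hlenf := g.len f hfd
      obtain ⟨_, v2⟩ := g.geo.vis _ hfd _ ⟨hf1, hf2⟩ 0 (by omega)
      have b2 := hB.iv _ _ v2
      rw [Function.iterate_zero, id] at b2
      have hVe : 6 * (W + ((P e : ℝ) + S e + 1)) = ev x y (V + hF v e) := by
        rw [ev_add, ← hW, ← hF_ev h hed]; ring
      rcases lt_trichotomy p (σ e).length with h8 | h8 | h8
      · exfalso
        obtain ⟨s, hs⟩ : ∃ s, (σ e).length = p + s := ⟨(σ e).length - p, by omega⟩
        rw [hs, Function.iterate_add_apply] at hret'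
        have k1 := map_it hB b1.1 b1.2 s
        have k3 := inj_it hB k1.1 k1.2 b2.1 b2.2 p (by rw [hret', hper])
        have k4 := g.fr _ hed _ hJ s (by omega) (by omega)
        rw [k3] at k4
        linarith
      · rw [← h8, ← hper] at hret'
        have k3 := inj_it hB b1.1 b1.2 b2.1 b2.2 p hret'
        rw [k3] at hlo2 hhi2
        have hpp : (p : ℝ) = P e + S e + 1 := by
          rw [h8, hlen]; push_cast; ring
        rw [hpp]
        rcases hcand with hcand | hcand | hcand
        · exfalso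
          have := le_of_nn h hcand
          rw [psT h] at hza
          linarith
        · exfalso
          have := le_of_nn h hcand
          rw [psB h] at hzb
          linarith
        · exact okc_ok h hhi2 hza hzb hVe hN hcand
      · obtain ⟨q, rfl⟩ : ∃ q, p = (σ e).length + q := ⟨p - (σ e).length, by omega⟩
        rw [Function.iterate_add_apply] at hper
        have k1 := map_it hB b2.1 b2.2 q
        have k3 := inj_it hB k1.1 k1.2 b1.1 b1.2 (σ e).length (by rw [hret', hper])
        have hpp : (((σ e).length + q : ℕ) : ℝ) = (P e + S e + 1) + q := by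
          rw [hlen]; push_cast; ring
        rw [hpp]
        rcases hrec with hrec | hrec
        · have k4 : (σ f).length ≤ q := by
            by_contra hcc
            push Not at hcc
            have := g.fr _ hfd _ ⟨hf1, hf2⟩ q (by omega) hcc
            rw [k3] at this
            linarith [hJ.2]
          have k5 := stop_ok h hfd had hbd hza hzb hVe hN hrec
          have k6 : ((P f : ℝ) + S f + 1) ≤ q := by
            have : P f + S f + 1 ≤ q := by omega
            exact_mod_cast this
          have k7 := mul_le_mul_of_nonneg_left k6 th_nn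
          linarith
        · have k5 := ih _ _ _ hrec N q y2 z _ hVe (by linarith [hJ.1]) (by linarith [hJ.2]) hlo2 hhi2 hz0 hza hzb
            (by omega) k3 hN
          linarith

theorem bk_forw (g : GX E v.R σ lam P S) (hB : Bij E) (h : Sem v lam P S r x y) :
    ∀ (n : ℕ) (lo hi : ℤ × ℤ) (V : Fm), bk v false n lo hi V = true →
    ∀ (N p : ℕ) (y' z W : ℝ), 6 * W = ev x y V → 0 ≤ y' → y' < tot lam v.R.top → r * va lo ≤ y' → y' < r * va hi →
      0 ≤ z → z < ps lam v.R.a v.R.top → z < ps lam v.R.b v.R.bot → 0 < p → E.T^[p] y' = z →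
      (∀ a b : Fin 7, z < ps lam a v.R.top → z < ps lam b v.R.bot → N ≤ P a + S b) → (N : ℝ) ≤ th * (W + p) := by
  have hri := g.geo.ri
  obtain ⟨had, hbd, hab⟩ := ri_ab hri
  have hpt : ∀ w ∈ v.R.top, 0 < lam w := fun w hw => g.geo.pos w ((ri_mem_top hri w).1 hw)
  have hpb : ∀ w ∈ v.R.bot, 0 < lam w := fun w hw => g.geo.pos w ((ri_mem_bot hri w).1 hw)
  have et : tot lam v.R.bot = tot lam v.R.top := tot_perm lam (hri.bot.trans hri.top.symm)
  have ea : ps lam v.R.a v.R.top = tot lam v.R.top - lam v.R.a := ps_lst (ri_nd_top hri) (ne_top hri)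
  intro n
  induction n with
  | zero => intro lo hi V hc; simp [bk] at hc
  | succ n ih =>
    intro lo hi V hc N p y' z W hW hy0 hy1 hlo hhi hz0 hza hzb hp hper hN
    obtain ⟨e, he, he1, he2⟩ := ps_find (ri_nd_top hri) hpt hy0 hy1
    have hed := (ri_mem_top hri e).1 he
    simp only [bk, List.all_eq_true, List.mem_range, Bool.or_eq_true, Bool.and_eq_true] at hc
    have hce := hc e hed
    have hle := h.hl e hed
    have hz1 : z < tot lam v.R.top := by linarith [g.geo.pos _ had]
    have e1 : r * va (pT v e + ln v e) = ps lam e v.R.top + lam e := by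
      rw [psT h, hle, va_add]; ring
    rcases hce with hce | ⟨hcand, hrec⟩
    · exfalso
      simp only [emp, cond_false, Bool.or_eq_true] at hce
      rcases hce with hce | hce
      · have := le_of_nn h hce
        rw [psT h] at he1
        linarith
      · have := le_of_nn h hce
        rw [e1] at this
        linarith
    · have hJ : inJ v.R lam e y' := ⟨he1, he2⟩
      have hret := g.geo.ret e hed _ hJ
      have t1 := ps_nonneg hpb e
      have t2 := ps_le_tot hpb ((ri_mem_bot hri _).2 hed)
      have hlo2 : r * va (nlo v false lo e) ≤ y' - ps lam e v.R.top + ps lam e v.R.bot := by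
        simp only [nlo, cond_false]
        rw [va_add, va_sub, psT h, psB h]
        cases hq : nn (lo - pT v e) with
        | true => rw [cond_true]; linarith
        | false => rw [cond_false]; rw [psT h] at he1; linarith
      have hhi2 : y' - ps lam e v.R.top + ps lam e v.R.bot < r * va (nhi v false hi e) := by
        simp only [nhi, cond_false]
        rw [va_add, va_sub, psT h, psB h]
        cases hq : nn (hi - (pT v e + ln v e)) with
        | true => rw [cond_true]; rw [psT h] at he2 e1; linarith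
        | false => rw [cond_false]; linarith
      set y2 : ℝ := y' - ps lam e v.R.top + ps lam e v.R.bot with hy2
      have hlen := g.len e hed
      have hlene : 0 < (σ e).length := by omega
      have y20 : 0 ≤ y2 := by linarith
      have y21 : y2 < tot lam v.R.top := by linarith
      have hVe : 6 * (W + ((P e : ℝ) + S e + 1)) = ev x y (V + hF v e) := by
        rw [ev_add, ← hW, ← hF_ev h hed]; ring
      rcases lt_trichotomy p (σ e).length with h8 | h8 | h8
      · exfalso
        have k4 := g.fr _ hed _ hJ p hp h8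
        rw [hper] at k4
        linarith
      · rw [← h8, hper] at hret
        rw [← hret] at hlo2 hhi2
        have hpp : (p : ℝ) = P e + S e + 1 := by
          rw [h8, hlen]; push_cast; ring
        rw [hpp]
        rcases hcand with hcand | hcand | hcand
        · exfalso
          have := le_of_nn h hcand
          rw [psT h] at hza
          linarith
        · exfalso
          have := le_of_nn h hcand
          rw [psB h] at hzb
          linarith
        · exact okc_ok h hhi2 hza hzb hVe hN hcand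
      · obtain ⟨q, rfl⟩ : ∃ q, p = q + (σ e).length := ⟨p - (σ e).length, by omega⟩
        rw [Function.iterate_add_apply, hret] at hper
        have hpp : ((q + (σ e).length : ℕ) : ℝ) = (P e + S e + 1) + q := by
          push_cast
          rw [hlen]; push_cast; ring
        rw [hpp]
        rcases hrec with hrec | hrec
        · obtain ⟨f, hf, hf1, hf2⟩ := ps_find (ri_nd_top hri) hpt y20 y21
          have hfd := (ri_mem_top hri f).1 hf
          have hlenf := g.len f hfd
          have k4 : (σ f).length ≤ q := by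
            by_contra hcc
            push Not at hcc
            have := g.fr _ hfd _ ⟨hf1, hf2⟩ q (by omega) hcc
            rw [hper] at this
            linarith
          have k5 := stop_ok h hfd had hbd hza hzb hVe hN hrec
          have k6 : ((P f : ℝ) + S f + 1) ≤ q := by
            have : P f + S f + 1 ≤ q := by omega
            exact_mod_cast this
          have k7 := mul_le_mul_of_nonneg_left k6 th_nn
          linarith
        · have k5 := ih _ _ _ hrec N q y2 z _ hVe y20 y21 hlo2 hhi2 hz0 hza hzb (by omega) hper hN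
          linarith

theorem chk_ok (g : GX E v.R σ lam P S) (hB : Bij E) (h : Sem v lam P S r x y) (hc : chk v = true) :
    GoodP E v.R lam P S th := by
  intro N p L U hp hL0 hLa hLb haU hbU hU hper hN
  have hri := g.geo.ri
  obtain ⟨had, hbd, hab⟩ := ri_ab hri
  have hpt : ∀ w ∈ v.R.top, 0 < lam w := fun w hw => g.geo.pos w ((ri_mem_top hri w).1 hw)
  have ea : ps lam v.R.a v.R.top = tot lam v.R.top - lam v.R.a := ps_lst (ri_nd_top hri) (ne_top hri)
  have hU0 : 0 ≤ U := by linarith
  have h0 : 6 * (0 : ℝ) = ev x y (0, 0, 0) := by simp [ev]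
  unfold chk at hc
  simp only [Bool.and_eq_true] at hc
  have hlo : r * va (bif nn (pT v v.R.a - pB v v.R.b) then pT v v.R.a else pB v v.R.b) ≤ U := by
    cases hq : nn (pT v v.R.a - pB v v.R.b) with
    | true => rw [cond_true, ← psT h]; exact haU
    | false => rw [cond_false, ← psB h]; exact hbU
  have hhi : U < r * va (pT v v.R.a + ln v v.R.a) := by
    rw [va_add, mul_add, ← psT h, ← h.hl _ had, ea]
    linarith
  rcases hper with hper | hper
  · have := bk_back g hB h 4 _ _ _ hc.1 N p U L 0 h0 hU0 hU hlo hhi hL0 hLa hLb hp hper hN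
    linarith
  · have := bk_forw g hB h 4 _ _ _ hc.2 N p U L 0 h0 hU0 hU hlo hhi hL0 hLa hLb hp hper hN
    linarith

end

end Pool.Agent.SEV
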