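import Pool.Agent.SYM.Runs

/-!
# SEV/Gp: runs of an exchange from a condition at each level
-/

set_option autoImplicit false

namespace Pool.Agent.SEV

open Pool.Agent.RTX Pool.Agent.SYM
open Pool.Agent.Helper44.IET

variable {d : ℕ} {E : Exchange d}

/-- the condition at one level: a run of length at most `P z + S z'` for all cuts between its ends is not longer than `θ` times the period -/
def GoodP {d : ℕ} (E : Exchange d) (R : Rows) (lam : ℕ → ℝ) (P S : ℕ → ℕ) (θ : ℝ) : Prop :=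
  ∀ (N p : ℕ) (L U : ℝ), 0 < p → 0 ≤ L → L < ps lam R.a R.top → L < ps lam R.b R.bot → ps lam R.a R.top ≤ U →
    ps lam R.b R.bot ≤ U → U < tot lam R.top → (E.T^[p] L = U ∨ E.T^[p] U = L) →
    (∀ z z' : Fin d, L < ps lam z R.top → L < ps lam z' R.bot → N ≤ P z + S z') → (N : ℝ) ≤ θ * p

variable {R : ℕ → Rows} {c : ℕ → Bool} {σ : ℕ → ℕ → List ℕ} {lam : ℕ → ℕ → ℝ} {P S : ℕ → ℕ → ℕ}

theorem run_max2 (L : Lv E R c σ lam P S) {θ : ℝ}
    (hG : ∀ t, GoodP E (R t) (lam t) (P t) (S t) θ) {l u : ℝ} {N p : ℕ} (hl0 : 0 ≤ l) (hu1 : u < 1) (hlu : l < u)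
    (hA : Agr E l u N) (hL : Lmax E l u) (hR : Rmax E l u N) (hp : 0 < p)
    (hper : E.T^[p] l = u ∨ E.T^[p] u = l) : (N : ℝ) ≤ θ * p := by
  obtain ⟨j, hj, hmin⟩ := Finset.exists_min_image (Finset.range (N + 1)) (fun i => E.T^[i] u) ⟨0, by simp⟩
  have hj' : j ≤ N := by
    rw [Finset.mem_range] at hj; omega
  have hmin' : ∀ i ≤ N, E.T^[j] u ≤ E.T^[i] u := fun i hi => hmin i (by rw [Finset.mem_range]; omega)
  obtain ⟨-, h1⟩ := rigid hA (le_refl l) hlu.le j hj'
  have h2 := map_it L.bij hl0 (by linarith : l < 1) j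
  have h3 := map_it L.bij (by linarith : 0 ≤ u) hu1 j
  obtain ⟨t, h4, h5, h6⟩ := find_level L (U := E.T^[j] u) (by linarith) h3.2
  have k1 := hull_a (L.g t) hlu hA hR hj' hmin' h4
  have k2 := hull_b (L.g t) L.bij hl0 hu1 hlu hA hL hj' hmin' h4
  refine hG t N p _ _ hp h2.1 k1 k2 h5 h6 h4 ?_ fun z z' hz hz' =>
    cuts (L.g t) L.bij hl0 hu1 hlu hA hL hR hj' hmin' h4 h5 h6 z z' (Or.inr hz) (Or.inr hz')
  rcases hper with h | h
  · left
    rw [← h, ← Function.iterate_add_apply, ← Function.iterate_add_apply, Nat.add_comm]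
  · right
    rw [← h, ← Function.iterate_add_apply, ← Function.iterate_add_apply, Nat.add_comm]

theorem run_all2 (L : Lv E R c σ lam P S) {θ : ℝ}
    (hG : ∀ t, GoodP E (R t) (lam t) (P t) (S t) θ) {x : ℝ} {N p : ℕ} (hx0 : 0 ≤ x) (hx1 : x < 1) (hp : 0 < p)
    (hA : Agr E x (E.T^[p] x) N) : (N : ℝ) ≤ θ * p := by
  have hne : E.T^[p] x ≠ x := fun h => no_per L hx0 hx1 hp h
  obtain ⟨n, hn, ⟨x', h0, h1, hd, hA'⟩, hnot⟩ : ∃ n, N ≤ n ∧
      (∃ x' : ℝ, 0 ≤ x' ∧ x' < 1 ∧ E.T^[p] x' - x' = E.T^[p] x - x ∧ Agr E x' (E.T^[p] x') n) ∧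
      ¬ ∃ x' : ℝ, 0 ≤ x' ∧ x' < 1 ∧ E.T^[p] x' - x' = E.T^[p] x - x ∧ Agr E x' (E.T^[p] x') (n + 1) := by
    by_contra hc
    push Not at hc
    have hall : ∀ k, ∃ x' : ℝ, 0 ≤ x' ∧ x' < 1 ∧ E.T^[p] x' - x' = E.T^[p] x - x ∧ Agr E x' (E.T^[p] x') (N + k) := by
      intro k
      induction k with
      | zero => exact ⟨x, hx0, hx1, rfl, hA⟩
      | succ k ih =>
        exact hc (N + k) (by omega) ih
    rcases lt_or_gt_of_ne hne with h | h
    · obtain ⟨H, hH⟩ := run_bd L (δ := x - E.T^[p] x) (by linarith)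
      obtain ⟨x', h0, h1, hd, hA'⟩ := hall H
      have h2 := map_it L.bij h0 h1 p
      have := hH (E.T^[p] x') x' h2.1 h1 (by linarith) _ (agr_symm hA')
      omega
    · obtain ⟨H, hH⟩ := run_bd L (δ := E.T^[p] x - x) (by linarith)
      obtain ⟨x', h0, h1, hd, hA'⟩ := hall H
      have h2 := map_it L.bij h0 h1 p
      have := hH x' (E.T^[p] x') h0 h2.2 (by linarith) _ hA'
      omega
  have hN : (N : ℝ) ≤ n := by exact_mod_cast hn
  have hy := map_it L.bij h0 h1 p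
  have hR : Rmax E x' (E.T^[p] x') n := by
    intro i h2 h3
    refine hnot ⟨x', h0, h1, hd, fun j hj => ?_⟩
    rcases Nat.lt_succ_iff_lt_or_eq.1 hj with h4 | h4
    · exact hA' j h4
    · rw [h4]; exact ⟨i, h2, h3⟩
  have hL : Lmax E x' (E.T^[p] x') := by
    intro l' u' i hl' hu' hl2 hu2
    have b1 := L.bij.iv i l' hl'
    have b2 := L.bij.iv i u' hu'
    have b3 := map_it L.bij b1.1 b1.2 p
    have h5 : E.T^[p] l' = u' := by
      refine inj1 L.bij b3.1 b3.2 b2.1 b2.2 ?_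
      have e1 : E.T (E.T^[p] l') = E.T^[p] (E.T l') := by
        rw [← Function.iterate_succ_apply' E.T p l', Function.iterate_succ_apply]
      rw [hu2, e1, hl2]
    refine hnot ⟨l', b1.1, b1.2, ?_, fun j hj => ?_⟩
    · rw [h5, ← hd]
      have h6 := E.T_of_mem hl'
      have h7 := E.T_of_mem hu'
      rw [hl2] at h6
      rw [hu2] at h7
      linarith
    · rw [h5]
      cases j with
      | zero => exact ⟨i, hl', hu'⟩
      | succ j =>
        rw [Function.iterate_succ_apply, Function.iterate_succ_apply, hl2, hu2]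
        exact hA' j (by omega)
  rcases lt_or_gt_of_ne hne with h | h
  · have := run_max2 L hG hy.1 h1 (by linarith) (agr_symm hA') (fun l' u' i a b e f => hL u' l' i b a f e)
      (fun i a b => hR i b a) hp (Or.inr rfl)
    linarith
  · have := run_max2 L hG h0 hy.2 (by linarith) hA' hL hR hp (Or.inl rfl)
    linarith

theorem pow_le2 (L : Lv E R c σ lam P S) {θ : ℝ} (hθ : 0 ≤ θ)
    (hG : ∀ t, GoodP E (R t) (lam t) (P t) (S t) θ) {u : ℕ → Fin d} (hu : E.IsCoding u) {i p l : ℕ} (hp : 0 < p)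
    (h : HasPower u i p l) : (l : ℝ) ≤ (1 + θ) * p := by
  obtain ⟨x, hx, hux⟩ := hu
  have hp' : (0 : ℝ) ≤ p := Nat.cast_nonneg p
  rcases Nat.le_total l p with hl | hl
  · have h1 : (l : ℝ) ≤ p := by exact_mod_cast hl
    nlinarith [mul_nonneg hθ hp']
  · obtain ⟨N, rfl⟩ : ∃ N, l = p + N := ⟨l - p, by omega⟩
    have hm := map_it L.bij hx.1 hx.2 i
    have hA : Agr E (E.T^[i] x) (E.T^[p] (E.T^[i] x)) N := by
      intro j hj
      have h1 := hux (i + j)
      have h2 := hux (i + j + p)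
      rw [← h j (by omega)] at h2
      refine ⟨u (i + j), ?_, ?_⟩
      · rw [← Function.iterate_add_apply, Nat.add_comm j]; exact h1
      · rw [← Function.iterate_add_apply, ← Function.iterate_add_apply,
          show j + p + i = i + j + p by omega]
        exact h2
    have h3 := run_all2 L hG hm.1 hm.2 hp hA
    push_cast
    linarith

end Pool.Agent.SEV
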