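import Pool.Agent.SEV.Bk

/-!
# SEV/Tab7: tables of a Rauzy path of type seven: twenty levels, then a loop of length thirty-four for ever

Entry `t < 20` of the table is level `t`, entry `20 + φ` is phase `φ` of the loop.  Lengths are written as `x + y √10`, six
times the forward and backward times as affine forms in two variables.
-/

set_option autoImplicit false

namespace Pool.Agent.SEV

open Pool.Agent.RTX

/-- the types of the steps -/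
def tyL : List Bool := [true, false, true, true, false, true, true, true, true, false, true, true, false, false, true, false, true, false, true, true, true, false, true, false, true, false, false, true, false, false, true, false, true, false, true, false, true, false, true, false, true, false, true, true, false, true, true, false, true, false, true, false, true, false]

/-- the table -/
def tabV : List Lev := [
  ⟨⟨[0, 1, 2, 3, 4, 5, 6], [4, 5, 6, 0, 1, 2, 3]⟩,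
    [(12, -3), (-2, 2), (12, -3), (-28, 10), (26, -8), (12, -3), (-14, 5)],
    [(0, 0, 0), (0, 0, 0), (0, 0, 0), (0, 0, 0), (0, 0, 0), (0, 0, 0), (0, 0, 0)],
    [(0, 0, 0), (0, 0, 0), (0, 0, 0), (0, 0, 0), (0, 0, 0), (0, 0, 0), (0, 0, 0)]⟩,
  ⟨⟨[0, 1, 2, 3, 6, 4, 5], [4, 5, 6, 0, 1, 2, 3]⟩,
    [(12, -3), (-2, 2), (12, -3), (-14, 5), (26, -8), (12, -3), (-14, 5)],
    [(0, 0, 0), (0, 0, 0), (0, 0, 0), (0, 0, 0), (0, 0, 0), (0, 0, 0), (0, 0, 6)],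
    [(0, 0, 0), (0, 0, 0), (0, 0, 0), (0, 0, 0), (0, 0, 0), (0, 0, 0), (0, 0, 0)]⟩,
  ⟨⟨[0, 1, 2, 3, 6, 4, 5], [4, 5, 3, 6, 0, 1, 2]⟩,
    [(12, -3), (-2, 2), (12, -3), (-14, 5), (26, -8), (26, -8), (-14, 5)],
    [(0, 0, 0), (0, 0, 0), (0, 0, 0), (0, 0, 0), (0, 0, 0), (0, 0, 0), (0, 0, 6)],
    [(0, 0, 0), (0, 0, 0), (0, 0, 0), (0, 0, 6), (0, 0, 0), (0, 0, 0), (0, 0, 0)]⟩,
  ⟨⟨[0, 1, 2, 5, 3, 6, 4], [4, 5, 3, 6, 0, 1, 2]⟩,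
    [(12, -3), (-2, 2), (-14, 5), (-14, 5), (26, -8), (26, -8), (-14, 5)],
    [(0, 0, 0), (0, 0, 0), (0, 0, 0), (0, 0, 0), (0, 0, 0), (0, 0, 6), (0, 0, 6)],
    [(0, 0, 0), (0, 0, 0), (0, 0, 0), (0, 0, 6), (0, 0, 0), (0, 0, 0), (0, 0, 0)]⟩,
  ⟨⟨[0, 1, 2, 4, 5, 3, 6], [4, 5, 3, 6, 0, 1, 2]⟩,
    [(12, -3), (-2, 2), (-40, 13), (-14, 5), (26, -8), (26, -8), (-14, 5)],
    [(0, 0, 0), (0, 0, 0), (0, 0, 0), (0, 0, 0), (0, 0, 6), (0, 0, 6), (0, 0, 6)],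
    [(0, 0, 0), (0, 0, 0), (0, 0, 0), (0, 0, 6), (0, 0, 0), (0, 0, 0), (0, 0, 0)]⟩,
  ⟨⟨[0, 1, 2, 4, 5, 3, 6], [4, 5, 3, 6, 2, 0, 1]⟩,
    [(12, -3), (-2, 2), (-40, 13), (-14, 5), (26, -8), (26, -8), (26, -8)],
    [(0, 0, 0), (0, 0, 0), (0, 0, 0), (0, 0, 0), (0, 0, 6), (0, 0, 6), (0, 0, 6)],
    [(0, 0, 0), (0, 0, 0), (0, 0, 12), (0, 0, 6), (0, 0, 0), (0, 0, 0), (0, 0, 0)]⟩,
  ⟨⟨[0, 1, 6, 2, 4, 5, 3], [4, 5, 3, 6, 2, 0, 1]⟩,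
    [(12, -3), (-28, 10), (-40, 13), (-14, 5), (26, -8), (26, -8), (26, -8)],
    [(0, 0, 0), (0, 0, 0), (0, 0, 0), (0, 0, 0), (0, 0, 6), (0, 0, 6), (0, 0, 12)],
    [(0, 0, 0), (0, 0, 0), (0, 0, 12), (0, 0, 6), (0, 0, 0), (0, 0, 0), (0, 0, 0)]⟩,
  ⟨⟨[0, 1, 3, 6, 2, 4, 5], [4, 5, 3, 6, 2, 0, 1]⟩,
    [(12, -3), (-14, 5), (-40, 13), (-14, 5), (26, -8), (26, -8), (26, -8)],
    [(0, 0, 0), (0, 0, 0), (0, 0, 0), (0, 0, 6), (0, 0, 6), (0, 0, 6), (0, 0, 12)],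
    [(0, 0, 0), (0, 0, 0), (0, 0, 12), (0, 0, 6), (0, 0, 0), (0, 0, 0), (0, 0, 0)]⟩,
  ⟨⟨[0, 1, 5, 3, 6, 2, 4], [4, 5, 3, 6, 2, 0, 1]⟩,
    [(12, -3), (-40, 13), (-40, 13), (-14, 5), (26, -8), (26, -8), (26, -8)],
    [(0, 0, 0), (0, 0, 0), (0, 0, 0), (0, 0, 6), (0, 0, 6), (0, 0, 12), (0, 0, 12)],
    [(0, 0, 0), (0, 0, 0), (0, 0, 12), (0, 0, 6), (0, 0, 0), (0, 0, 0), (0, 0, 0)]⟩,
  ⟨⟨[0, 1, 4, 5, 3, 6, 2], [4, 5, 3, 6, 2, 0, 1]⟩,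
    [(12, -3), (-66, 21), (-40, 13), (-14, 5), (26, -8), (26, -8), (26, -8)],
    [(0, 0, 0), (0, 0, 0), (0, 0, 0), (0, 0, 6), (0, 0, 12), (0, 0, 12), (0, 0, 12)],
    [(0, 0, 0), (0, 0, 0), (0, 0, 12), (0, 0, 6), (0, 0, 0), (0, 0, 0), (0, 0, 0)]⟩,
  ⟨⟨[0, 1, 4, 5, 3, 6, 2], [4, 5, 3, 6, 2, 1, 0]⟩,
    [(12, -3), (-66, 21), (26, -8), (-14, 5), (26, -8), (26, -8), (26, -8)],
    [(0, 0, 0), (0, 0, 0), (0, 0, 0), (0, 0, 6), (0, 0, 12), (0, 0, 12), (0, 0, 12)],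
    [(0, 0, 0), (0, 0, 18), (0, 0, 12), (0, 0, 6), (0, 0, 0), (0, 0, 0), (0, 0, 0)]⟩,
  ⟨⟨[0, 2, 1, 4, 5, 3, 6], [4, 5, 3, 6, 2, 1, 0]⟩,
    [(-14, 5), (-66, 21), (26, -8), (-14, 5), (26, -8), (26, -8), (26, -8)],
    [(0, 0, 0), (0, 0, 0), (0, 0, 6), (0, 0, 6), (0, 0, 12), (0, 0, 12), (0, 0, 12)],
    [(0, 0, 0), (0, 0, 18), (0, 0, 12), (0, 0, 6), (0, 0, 0), (0, 0, 0), (0, 0, 0)]⟩,
  ⟨⟨[0, 6, 2, 1, 4, 5, 3], [4, 5, 3, 6, 2, 1, 0]⟩,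
    [(-40, 13), (-66, 21), (26, -8), (-14, 5), (26, -8), (26, -8), (26, -8)],
    [(0, 0, 0), (0, 0, 0), (0, 0, 6), (0, 0, 6), (0, 0, 12), (0, 0, 12), (0, 0, 18)],
    [(0, 0, 0), (0, 0, 18), (0, 0, 12), (0, 0, 6), (0, 0, 0), (0, 0, 0), (0, 0, 0)]⟩,
  ⟨⟨[0, 6, 2, 1, 4, 5, 3], [4, 5, 3, 0, 6, 2, 1]⟩,
    [(-40, 13), (-66, 21), (26, -8), (26, -8), (26, -8), (26, -8), (26, -8)],
    [(0, 0, 0), (0, 0, 0), (0, 0, 6), (0, 0, 6), (0, 0, 12), (0, 0, 12), (0, 0, 18)],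
    [(0, 0, 18), (0, 0, 18), (0, 0, 12), (0, 0, 6), (0, 0, 0), (0, 0, 0), (0, 0, 0)]⟩,
  ⟨⟨[0, 6, 2, 1, 4, 5, 3], [4, 5, 3, 1, 0, 6, 2]⟩,
    [(-40, 13), (-66, 21), (26, -8), (92, -29), (26, -8), (26, -8), (26, -8)],
    [(0, 0, 0), (0, 0, 0), (0, 0, 6), (0, 0, 6), (0, 0, 12), (0, 0, 12), (0, 0, 18)],
    [(0, 0, 18), (0, 0, 36), (0, 0, 12), (0, 0, 6), (0, 0, 0), (0, 0, 0), (0, 0, 0)]⟩,
  ⟨⟨[0, 6, 2, 3, 1, 4, 5], [4, 5, 3, 1, 0, 6, 2]⟩,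
    [(-40, 13), (-66, 21), (-66, 21), (92, -29), (26, -8), (26, -8), (26, -8)],
    [(0, 0, 0), (0, 0, 0), (0, 0, 6), (0, 0, 30), (0, 0, 12), (0, 0, 12), (0, 0, 18)],
    [(0, 0, 18), (0, 0, 36), (0, 0, 12), (0, 0, 6), (0, 0, 0), (0, 0, 0), (0, 0, 0)]⟩,
  ⟨⟨[0, 6, 2, 3, 1, 4, 5], [4, 5, 2, 3, 1, 0, 6]⟩,
    [(-40, 13), (-66, 21), (-66, 21), (92, -29), (26, -8), (92, -29), (26, -8)],
    [(0, 0, 0), (0, 0, 0), (0, 0, 6), (0, 0, 30), (0, 0, 12), (0, 0, 12), (0, 0, 18)],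
    [(0, 0, 18), (0, 0, 36), (0, 0, 30), (0, 0, 6), (0, 0, 0), (0, 0, 0), (0, 0, 0)]⟩,
  ⟨⟨[0, 6, 5, 2, 3, 1, 4], [4, 5, 2, 3, 1, 0, 6]⟩,
    [(-40, 13), (-66, 21), (-66, 21), (92, -29), (26, -8), (92, -29), (-66, 21)],
    [(0, 0, 0), (0, 0, 0), (0, 0, 6), (0, 0, 30), (0, 0, 12), (0, 0, 36), (0, 0, 18)],
    [(0, 0, 18), (0, 0, 36), (0, 0, 30), (0, 0, 6), (0, 0, 0), (0, 0, 0), (0, 0, 0)]⟩,
  ⟨⟨[0, 6, 5, 2, 3, 1, 4], [4, 6, 5, 2, 3, 1, 0]⟩,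
    [(-40, 13), (-66, 21), (-66, 21), (92, -29), (92, -29), (92, -29), (-66, 21)],
    [(0, 0, 0), (0, 0, 0), (0, 0, 6), (0, 0, 30), (0, 0, 12), (0, 0, 36), (0, 0, 18)],
    [(0, 0, 18), (0, 0, 36), (0, 0, 30), (0, 0, 6), (0, 0, 0), (0, 0, 0), (0, 0, 18)]⟩,
  ⟨⟨[0, 4, 6, 5, 2, 3, 1], [4, 6, 5, 2, 3, 1, 0]⟩,
    [(-132, 42), (-66, 21), (-66, 21), (92, -29), (92, -29), (92, -29), (-66, 21)],
    [(0, 0, 0), (0, 0, 0), (0, 0, 6), (0, 0, 30), (0, 0, 36), (0, 0, 36), (0, 0, 18)],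
    [(0, 0, 18), (0, 0, 36), (0, 0, 30), (0, 0, 6), (0, 0, 0), (0, 0, 0), (0, 0, 18)]⟩,
  ⟨⟨[0, 1, 4, 6, 5, 2, 3], [4, 6, 5, 2, 3, 1, 0]⟩,
    [(-66, 21), (-66, 21), (-66, 21), (92, -29), (92, -29), (92, -29), (-66, 21)],
    [(0, 0, 0), (0, 3, 3), (-4, 3, 1), (-4, 6, 4), (0, 6, -6), (-2, 6, 2), (-2, 3, 5)],
    [(6, 0, -6), (6, 3, -9), (4, 3, -7), (4, 0, -10), (0, 0, 0), (2, 0, -8), (2, 3, -11)]⟩,
  ⟨⟨[0, 3, 1, 4, 6, 5, 2], [4, 6, 5, 2, 3, 1, 0]⟩,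
    [(-158, 50), (-66, 21), (-66, 21), (92, -29), (92, -29), (92, -29), (-66, 21)],
    [(0, 0, 0), (0, 3, 3), (-4, 3, 1), (2, 6, 4), (0, 6, -6), (-2, 6, 2), (-2, 3, 5)],
    [(6, 0, -6), (6, 3, -9), (4, 3, -7), (4, 0, -10), (0, 0, 0), (2, 0, -8), (2, 3, -11)]⟩,
  ⟨⟨[0, 3, 1, 4, 6, 5, 2], [4, 6, 5, 2, 0, 3, 1]⟩,
    [(-158, 50), (-66, 21), (92, -29), (92, -29), (92, -29), (92, -29), (-66, 21)],
    [(0, 0, 0), (0, 3, 3), (-4, 3, 1), (2, 6, 4), (0, 6, -6), (-2, 6, 2), (-2, 3, 5)],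
    [(6, 6, -6), (6, 3, -9), (4, 3, -7), (4, 0, -10), (0, 0, 0), (2, 0, -8), (2, 3, -11)]⟩,
  ⟨⟨[0, 3, 1, 2, 4, 6, 5], [4, 6, 5, 2, 0, 3, 1]⟩,
    [(-158, 50), (-158, 50), (92, -29), (92, -29), (92, -29), (92, -29), (-66, 21)],
    [(0, 0, 0), (0, 3, 3), (2, 9, 1), (2, 6, 4), (0, 6, -6), (-2, 6, 2), (-2, 3, 5)],
    [(6, 6, -6), (6, 3, -9), (4, 3, -7), (4, 0, -10), (0, 0, 0), (2, 0, -8), (2, 3, -11)]⟩,
  ⟨⟨[0, 3, 1, 2, 4, 6, 5], [4, 6, 5, 1, 2, 0, 3]⟩,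
    [(-158, 50), (-158, 50), (92, -29), (92, -29), (92, -29), (250, -79), (-66, 21)],
    [(0, 0, 0), (0, 3, 3), (2, 9, 1), (2, 6, 4), (0, 6, -6), (-2, 6, 2), (-2, 3, 5)],
    [(6, 6, -6), (6, 9, -9), (4, 3, -7), (4, 0, -10), (0, 0, 0), (2, 0, -8), (2, 3, -11)]⟩,
  ⟨⟨[0, 3, 5, 1, 2, 4, 6], [4, 6, 5, 1, 2, 0, 3]⟩,
    [(-158, 50), (-158, 50), (92, -29), (-158, 50), (92, -29), (250, -79), (-66, 21)],
    [(0, 0, 0), (0, 3, 3), (2, 9, 1), (2, 6, 4), (0, 6, -6), (4, 12, 2), (-2, 3, 5)],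
    [(6, 6, -6), (6, 9, -9), (4, 3, -7), (4, 0, -10), (0, 0, 0), (2, 0, -8), (2, 3, -11)]⟩,
  ⟨⟨[0, 3, 5, 1, 2, 4, 6], [4, 6, 3, 5, 1, 2, 0]⟩,
    [(-158, 50), (-158, 50), (92, -29), (-158, 50), (92, -29), (250, -79), (92, -29)],
    [(0, 0, 0), (0, 3, 3), (2, 9, 1), (2, 6, 4), (0, 6, -6), (4, 12, 2), (-2, 3, 5)],
    [(6, 6, -6), (6, 9, -9), (4, 3, -7), (4, 6, -10), (0, 0, 0), (2, 0, -8), (2, 3, -11)]⟩,
  ⟨⟨[0, 3, 5, 1, 2, 4, 6], [4, 6, 0, 3, 5, 1, 2]⟩,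
    [(-158, 50), (-158, 50), (92, -29), (-158, 50), (92, -29), (250, -79), (250, -79)],
    [(0, 0, 0), (0, 3, 3), (2, 9, 1), (2, 6, 4), (0, 6, -6), (4, 12, 2), (-2, 3, 5)],
    [(6, 12, -6), (6, 9, -9), (4, 3, -7), (4, 6, -10), (0, 0, 0), (2, 0, -8), (2, 3, -11)]⟩,
  ⟨⟨[0, 3, 5, 1, 2, 6, 4], [4, 6, 0, 3, 5, 1, 2]⟩,
    [(-158, 50), (-158, 50), (-158, 50), (-158, 50), (92, -29), (250, -79), (250, -79)],
    [(0, 0, 0), (0, 3, 3), (2, 9, 1), (2, 6, 4), (0, 6, -6), (4, 12, 2), (4, 15, 5)],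
    [(6, 12, -6), (6, 9, -9), (4, 3, -7), (4, 6, -10), (0, 0, 0), (2, 0, -8), (2, 3, -11)]⟩,
  ⟨⟨[0, 3, 5, 1, 2, 6, 4], [4, 2, 6, 0, 3, 5, 1]⟩,
    [(-158, 50), (-158, 50), (-158, 50), (-158, 50), (250, -79), (250, -79), (250, -79)],
    [(0, 0, 0), (0, 3, 3), (2, 9, 1), (2, 6, 4), (0, 6, -6), (4, 12, 2), (4, 15, 5)],
    [(6, 12, -6), (6, 9, -9), (4, 9, -7), (4, 6, -10), (0, 0, 0), (2, 0, -8), (2, 3, -11)]⟩,
  ⟨⟨[0, 3, 5, 1, 2, 6, 4], [4, 1, 2, 6, 0, 3, 5]⟩,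
    [(-158, 50), (-158, 50), (-158, 50), (-158, 50), (408, -129), (250, -79), (250, -79)],
    [(0, 0, 0), (0, 3, 3), (2, 9, 1), (2, 6, 4), (0, 6, -6), (4, 12, 2), (4, 15, 5)],
    [(6, 12, -6), (6, 15, -9), (4, 9, -7), (4, 6, -10), (0, 0, 0), (2, 0, -8), (2, 3, -11)]⟩,
  ⟨⟨[0, 3, 5, 4, 1, 2, 6], [4, 1, 2, 6, 0, 3, 5]⟩,
    [(-158, 50), (-158, 50), (-158, 50), (-158, 50), (408, -129), (-158, 50), (250, -79)],
    [(0, 0, 0), (0, 3, 3), (2, 9, 1), (2, 6, 4), (6, 18, -6), (4, 12, 2), (4, 15, 5)],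
    [(6, 12, -6), (6, 15, -9), (4, 9, -7), (4, 6, -10), (0, 0, 0), (2, 0, -8), (2, 3, -11)]⟩,
  ⟨⟨[0, 3, 5, 4, 1, 2, 6], [4, 1, 2, 6, 5, 0, 3]⟩,
    [(-158, 50), (-158, 50), (-158, 50), (-158, 50), (408, -129), (-158, 50), (408, -129)],
    [(0, 0, 0), (0, 3, 3), (2, 9, 1), (2, 6, 4), (6, 18, -6), (4, 12, 2), (4, 15, 5)],
    [(6, 12, -6), (6, 15, -9), (4, 9, -7), (4, 6, -10), (0, 0, 0), (8, 18, -8), (2, 3, -11)]⟩,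
  ⟨⟨[0, 3, 6, 5, 4, 1, 2], [4, 1, 2, 6, 5, 0, 3]⟩,
    [(-158, 50), (-158, 50), (-158, 50), (-566, 179), (408, -129), (-158, 50), (408, -129)],
    [(0, 0, 0), (0, 3, 3), (2, 9, 1), (2, 6, 4), (6, 18, -6), (4, 12, 2), (10, 27, 5)],
    [(6, 12, -6), (6, 15, -9), (4, 9, -7), (4, 6, -10), (0, 0, 0), (8, 18, -8), (2, 3, -11)]⟩,
  ⟨⟨[0, 3, 6, 5, 4, 1, 2], [4, 1, 2, 3, 6, 5, 0]⟩,
    [(-158, 50), (-158, 50), (408, -129), (-566, 179), (408, -129), (-158, 50), (408, -129)],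
    [(0, 0, 0), (0, 3, 3), (2, 9, 1), (2, 6, 4), (6, 18, -6), (4, 12, 2), (10, 27, 5)],
    [(6, 12, -6), (6, 15, -9), (4, 9, -7), (10, 24, -10), (0, 0, 0), (8, 18, -8), (2, 3, -11)]⟩,
  ⟨⟨[0, 2, 3, 6, 5, 4, 1], [4, 1, 2, 3, 6, 5, 0]⟩,
    [(-566, 179), (-158, 50), (408, -129), (-566, 179), (408, -129), (-158, 50), (408, -129)],
    [(0, 0, 0), (0, 3, 3), (8, 21, 1), (2, 6, 4), (6, 18, -6), (4, 12, 2), (10, 27, 5)],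
    [(6, 12, -6), (6, 15, -9), (4, 9, -7), (10, 24, -10), (0, 0, 0), (8, 18, -8), (2, 3, -11)]⟩,
  ⟨⟨[0, 2, 3, 6, 5, 4, 1], [4, 1, 0, 2, 3, 6, 5]⟩,
    [(-566, 179), (408, -129), (408, -129), (-566, 179), (408, -129), (-158, 50), (408, -129)],
    [(0, 0, 0), (0, 3, 3), (8, 21, 1), (2, 6, 4), (6, 18, -6), (4, 12, 2), (10, 27, 5)],
    [(12, 30, -6), (6, 15, -9), (4, 9, -7), (10, 24, -10), (0, 0, 0), (8, 18, -8), (2, 3, -11)]⟩,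
  ⟨⟨[0, 2, 3, 6, 5, 1, 4], [4, 1, 0, 2, 3, 6, 5]⟩,
    [(-566, 179), (408, -129), (408, -129), (-566, 179), (408, -129), (-566, 179), (408, -129)],
    [(0, 0, 0), (12, 33, 3), (8, 21, 1), (2, 6, 4), (6, 18, -6), (4, 12, 2), (10, 27, 5)],
    [(12, 30, -6), (6, 15, -9), (4, 9, -7), (10, 24, -10), (0, 0, 0), (8, 18, -8), (2, 3, -11)]⟩,
  ⟨⟨[0, 2, 3, 6, 5, 1, 4], [4, 5, 1, 0, 2, 3, 6]⟩,
    [(-566, 179), (408, -129), (408, -129), (-566, 179), (974, -308), (-566, 179), (408, -129)],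
    [(0, 0, 0), (12, 33, 3), (8, 21, 1), (2, 6, 4), (6, 18, -6), (4, 12, 2), (10, 27, 5)],
    [(12, 30, -6), (6, 15, -9), (4, 9, -7), (10, 24, -10), (0, 0, 0), (14, 36, -8), (2, 3, -11)]⟩,
  ⟨⟨[0, 2, 3, 6, 4, 5, 1], [4, 5, 1, 0, 2, 3, 6]⟩,
    [(-566, 179), (408, -129), (408, -129), (-566, 179), (974, -308), (-566, 179), (-566, 179)],
    [(0, 0, 0), (12, 33, 3), (8, 21, 1), (2, 6, 4), (18, 48, -6), (4, 12, 2), (10, 27, 5)],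
    [(12, 30, -6), (6, 15, -9), (4, 9, -7), (10, 24, -10), (0, 0, 0), (14, 36, -8), (2, 3, -11)]⟩,
  ⟨⟨[0, 2, 3, 6, 4, 5, 1], [4, 5, 1, 6, 0, 2, 3]⟩,
    [(-566, 179), (974, -308), (408, -129), (-566, 179), (974, -308), (-566, 179), (-566, 179)],
    [(0, 0, 0), (12, 33, 3), (8, 21, 1), (2, 6, 4), (18, 48, -6), (4, 12, 2), (10, 27, 5)],
    [(12, 30, -6), (6, 15, -9), (4, 9, -7), (10, 24, -10), (0, 0, 0), (14, 36, -8), (20, 51, -11)]⟩,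
  ⟨⟨[0, 2, 3, 1, 6, 4, 5], [4, 5, 1, 6, 0, 2, 3]⟩,
    [(-566, 179), (974, -308), (408, -129), (-1540, 487), (974, -308), (-566, 179), (-566, 179)],
    [(0, 0, 0), (24, 63, 3), (8, 21, 1), (2, 6, 4), (18, 48, -6), (4, 12, 2), (10, 27, 5)],
    [(12, 30, -6), (6, 15, -9), (4, 9, -7), (10, 24, -10), (0, 0, 0), (14, 36, -8), (20, 51, -11)]⟩,
  ⟨⟨[0, 2, 3, 1, 6, 4, 5], [4, 5, 3, 1, 6, 0, 2]⟩,
    [(-566, 179), (974, -308), (408, -129), (-1540, 487), (974, -308), (974, -308), (-566, 179)],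
    [(0, 0, 0), (24, 63, 3), (8, 21, 1), (2, 6, 4), (18, 48, -6), (4, 12, 2), (10, 27, 5)],
    [(12, 30, -6), (6, 15, -9), (4, 9, -7), (28, 72, -10), (0, 0, 0), (14, 36, -8), (20, 51, -11)]⟩,
  ⟨⟨[0, 2, 5, 3, 1, 6, 4], [4, 5, 3, 1, 6, 0, 2]⟩,
    [(-566, 179), (974, -308), (-566, 179), (-1540, 487), (974, -308), (974, -308), (-566, 179)],
    [(0, 0, 0), (24, 63, 3), (8, 21, 1), (2, 6, 4), (18, 48, -6), (16, 42, 2), (10, 27, 5)],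
    [(12, 30, -6), (6, 15, -9), (4, 9, -7), (28, 72, -10), (0, 0, 0), (14, 36, -8), (20, 51, -11)]⟩,
  ⟨⟨[0, 2, 4, 5, 3, 1, 6], [4, 5, 3, 1, 6, 0, 2]⟩,
    [(-566, 179), (974, -308), (-1540, 487), (-1540, 487), (974, -308), (974, -308), (-566, 179)],
    [(0, 0, 0), (24, 63, 3), (8, 21, 1), (2, 6, 4), (30, 78, -6), (16, 42, 2), (10, 27, 5)],
    [(12, 30, -6), (6, 15, -9), (4, 9, -7), (28, 72, -10), (0, 0, 0), (14, 36, -8), (20, 51, -11)]⟩,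
  ⟨⟨[0, 2, 4, 5, 3, 1, 6], [4, 5, 3, 1, 6, 2, 0]⟩,
    [(-566, 179), (974, -308), (-1540, 487), (-1540, 487), (974, -308), (974, -308), (974, -308)],
    [(0, 0, 0), (24, 63, 3), (8, 21, 1), (2, 6, 4), (30, 78, -6), (16, 42, 2), (10, 27, 5)],
    [(12, 30, -6), (6, 15, -9), (34, 87, -7), (28, 72, -10), (0, 0, 0), (14, 36, -8), (20, 51, -11)]⟩,
  ⟨⟨[0, 6, 2, 4, 5, 3, 1], [4, 5, 3, 1, 6, 2, 0]⟩,
    [(-1540, 487), (974, -308), (-1540, 487), (-1540, 487), (974, -308), (974, -308), (974, -308)],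
    [(0, 0, 0), (24, 63, 3), (8, 21, 1), (2, 6, 4), (30, 78, -6), (16, 42, 2), (22, 57, 5)],
    [(12, 30, -6), (6, 15, -9), (34, 87, -7), (28, 72, -10), (0, 0, 0), (14, 36, -8), (20, 51, -11)]⟩,
  ⟨⟨[0, 1, 6, 2, 4, 5, 3], [4, 5, 3, 1, 6, 2, 0]⟩,
    [(-2514, 795), (974, -308), (-1540, 487), (-1540, 487), (974, -308), (974, -308), (974, -308)],
    [(0, 0, 0), (36, 93, 3), (8, 21, 1), (2, 6, 4), (30, 78, -6), (16, 42, 2), (22, 57, 5)],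
    [(12, 30, -6), (6, 15, -9), (34, 87, -7), (28, 72, -10), (0, 0, 0), (14, 36, -8), (20, 51, -11)]⟩,
  ⟨⟨[0, 1, 6, 2, 4, 5, 3], [4, 5, 3, 0, 1, 6, 2]⟩,
    [(-2514, 795), (974, -308), (-1540, 487), (974, -308), (974, -308), (974, -308), (974, -308)],
    [(0, 0, 0), (36, 93, 3), (8, 21, 1), (2, 6, 4), (30, 78, -6), (16, 42, 2), (22, 57, 5)],
    [(42, 108, -6), (6, 15, -9), (34, 87, -7), (28, 72, -10), (0, 0, 0), (14, 36, -8), (20, 51, -11)]⟩,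
  ⟨⟨[0, 1, 6, 2, 3, 4, 5], [4, 5, 3, 0, 1, 6, 2]⟩,
    [(-2514, 795), (974, -308), (-2514, 795), (974, -308), (974, -308), (974, -308), (974, -308)],
    [(0, 0, 0), (36, 93, 3), (8, 21, 1), (44, 114, 4), (30, 78, -6), (16, 42, 2), (22, 57, 5)],
    [(42, 108, -6), (6, 15, -9), (34, 87, -7), (28, 72, -10), (0, 0, 0), (14, 36, -8), (20, 51, -11)]⟩,
  ⟨⟨[0, 1, 6, 2, 3, 4, 5], [4, 5, 2, 3, 0, 1, 6]⟩,
    [(-2514, 795), (974, -308), (-2514, 795), (974, -308), (974, -308), (3488, -1103), (974, -308)],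
    [(0, 0, 0), (36, 93, 3), (8, 21, 1), (44, 114, 4), (30, 78, -6), (16, 42, 2), (22, 57, 5)],
    [(42, 108, -6), (6, 15, -9), (64, 165, -7), (28, 72, -10), (0, 0, 0), (14, 36, -8), (20, 51, -11)]⟩,
  ⟨⟨[0, 1, 6, 5, 2, 3, 4], [4, 5, 2, 3, 0, 1, 6]⟩,
    [(-2514, 795), (974, -308), (-2514, 795), (974, -308), (974, -308), (3488, -1103), (-2514, 795)],
    [(0, 0, 0), (36, 93, 3), (8, 21, 1), (44, 114, 4), (30, 78, -6), (58, 150, 2), (22, 57, 5)],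
    [(42, 108, -6), (6, 15, -9), (64, 165, -7), (28, 72, -10), (0, 0, 0), (14, 36, -8), (20, 51, -11)]⟩,
  ⟨⟨[0, 1, 6, 5, 2, 3, 4], [4, 6, 5, 2, 3, 0, 1]⟩,
    [(-2514, 795), (974, -308), (-2514, 795), (974, -308), (3488, -1103), (3488, -1103), (-2514, 795)],
    [(0, 0, 0), (36, 93, 3), (8, 21, 1), (44, 114, 4), (30, 78, -6), (58, 150, 2), (22, 57, 5)],
    [(42, 108, -6), (6, 15, -9), (64, 165, -7), (28, 72, -10), (0, 0, 0), (14, 36, -8), (50, 129, -11)]⟩,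
  ⟨⟨[0, 1, 4, 6, 5, 2, 3], [4, 6, 5, 2, 3, 0, 1]⟩,
    [(-2514, 795), (-2514, 795), (-2514, 795), (974, -308), (3488, -1103), (3488, -1103), (-2514, 795)],
    [(0, 0, 0), (36, 93, 3), (8, 21, 1), (44, 114, 4), (72, 186, -6), (58, 150, 2), (22, 57, 5)],
    [(42, 108, -6), (6, 15, -9), (64, 165, -7), (28, 72, -10), (0, 0, 0), (14, 36, -8), (50, 129, -11)]⟩,
  ⟨⟨[0, 1, 4, 6, 5, 2, 3], [4, 6, 5, 2, 3, 1, 0]⟩,
    [(-2514, 795), (-2514, 795), (-2514, 795), (3488, -1103), (3488, -1103), (3488, -1103), (-2514, 795)],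
    [(0, 0, 0), (36, 93, 3), (8, 21, 1), (44, 114, 4), (72, 186, -6), (58, 150, 2), (22, 57, 5)],
    [(42, 108, -6), (78, 201, -9), (64, 165, -7), (28, 72, -10), (0, 0, 0), (14, 36, -8), (50, 129, -11)]⟩]

/-- entry of the table -/
def nV (i : ℕ) : Lev := tabV.getD i ⟨⟨[], []⟩, [], [], []⟩

/-- type of the step -/
def tyV (i : ℕ) : Bool := tyL.getD i false

/-- the types of all steps -/
def c7 (t : ℕ) : Bool := bif Nat.blt t 20 then tyV t else tyV (20 + (t - 20) % 34)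

/-- the table index of a level -/
def ix (t : ℕ) : ℕ := bif Nat.blt t 20 then t else 20 + (t - 20) % 34

theorem rowS : ∀ i < 54, (step (tyV i) (nV i).R).top = (nV (i + 1)).R.top ∧
    (step (tyV i) (nV i).R).bot = (nV (i + 1)).R.bot := by
  decide +kernel

theorem rowC : (nV 54).R.top = (nV 20).R.top ∧ (nV 54).R.bot = (nV 20).R.bot := by decide +kernel

theorem row0 : (nV 0).R.top = [0, 1, 2, 3, 4, 5, 6] ∧ (nV 0).R.bot = [4, 5, 6, 0, 1, 2, 3] := by decide +kernel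

theorem rowL : ∀ i < 55, (∀ x ∈ (nV i).R.top, x < 7) ∧ (∀ x ∈ (nV i).R.bot, x < 7) := by decide +kernel

theorem abL : ∀ i < 55, (nV i).R.a < 7 ∧ (nV i).R.b < 7 := by decide +kernel

theorem lamS : ∀ i < 54, ∀ x < 7, ln (nV (i + 1)) x =
    if x = win (tyV i) (nV i).R then ln (nV i) x - ln (nV i) (los (tyV i) (nV i).R) else ln (nV i) x := by
  decide +kernel

/-- strict inequality for the lengths, with margin -/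
theorem lamW : ∀ i < 54, nn (1000 * (ln (nV i) (win (tyV i) (nV i).R) - ln (nV i) (los (tyV i) (nV i).R)) - (1, 0)) = true := by
  decide +kernel

theorem lamC : ∀ x < 7, ln (nV 54) x =
    (19 * (ln (nV 20) x).1 - 60 * (ln (nV 20) x).2, 19 * (ln (nV 20) x).2 - 6 * (ln (nV 20) x).1) := by
  decide +kernel

theorem lam0 : ∀ x < 7, nn (1000 * ln (nV 0) x - (1, 0)) = true := by decide +kernel

/-- the recursion of the forms -/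
theorem fmS : ∀ k < 34, ∀ x < 7,
    (fP (nV (20 + (k + 1))) x = if tyV (20 + k) = true ∧ x = (nV (20 + k)).R.a then
      fP (nV (20 + k)) (nV (20 + k)).R.a + (fP (nV (20 + k)) (nV (20 + k)).R.b + fS (nV (20 + k)) (nV (20 + k)).R.b +
        (0, 0, 6)) else fP (nV (20 + k)) x) ∧
    (fS (nV (20 + (k + 1))) x = if tyV (20 + k) = false ∧ x = (nV (20 + k)).R.b then
      fS (nV (20 + k)) (nV (20 + k)).R.b + (fP (nV (20 + k)) (nV (20 + k)).R.a + fS (nV (20 + k)) (nV (20 + k)).R.a +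
        (0, 0, 6)) else fS (nV (20 + k)) x) := by
  decide +kernel

/-- value at the start of the first loop -/
def e0 (f : Fm) : ℤ := 4 * f.1 + 7 * f.2.1 + f.2.2

/-- the recursion of the numbers in the first levels -/
theorem fmN : ∀ i < 20, ∀ x < 7,
    (e0 (fP (nV (i + 1)) x) = if tyV i = true ∧ x = (nV i).R.a then
      e0 (fP (nV i) (nV i).R.a) + (e0 (fP (nV i) (nV i).R.b) + e0 (fS (nV i) (nV i).R.b) + 6) else e0 (fP (nV i) x)) ∧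
    (e0 (fS (nV (i + 1)) x) = if tyV i = false ∧ x = (nV i).R.b then
      e0 (fS (nV i) (nV i).R.b) + (e0 (fP (nV i) (nV i).R.a) + e0 (fS (nV i) (nV i).R.a) + 6) else e0 (fS (nV i) x)) := by
  decide +kernel

theorem fm0 : ∀ x < 7, e0 (fP (nV 0) x) = 0 ∧ e0 (fS (nV 0) x) = 0 := by decide +kernel

/-- the change of variables of one loop -/
def sf (f : Fm) : Fm := (7 * f.1 + 12 * f.2.1, 18 * f.1 + 31 * f.2.1, f.2.2)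

theorem fmC : ∀ x < 7, fP (nV 54) x = sf (fP (nV 20) x) ∧ fS (nV 54) x = sf (fS (nV 20) x) := by decide +kernel

/-- no left end at the bottom meets a later left end at the top -/
theorem noC7 : ∀ i < 7, ∀ j < 7, 0 < j →
    (nn (1000 * (pB (nV 20) i - pT (nV 20) j) - (1, 0)) = true ∨
      nn (1000 * (pT (nV 20) j - pB (nV 20) i) - (1, 0)) = true) := by
  decide +kernel

theorem ht7 : ∀ z < 7, nf (hF (nV 20) z) (1, 0, 0) = true := by decide +kernel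

theorem chkA : ∀ i < 54, chk (nV i) = true := by decide +kernel

end Pool.Agent.SEV
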